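import Mathlib

/-! One step of a weighted random greedy matching process, in expectation. -/

namespace Pool.Agent.Lib.MP_d738f8_co

open Finset

variable {V : Type*} [DecidableEq V]

/-- indicator of membership -/
noncomputable def chi (v : V) (e : Finset V) : ℝ := if v ∈ e then 1 else 0

/-- indicator of disjointness -/
noncomputable def dj (S o : Finset V) : ℝ := if Disjoint S o then 1 else 0

/-- the load of a vertex -/
noncomputable def load (G : Finset (Finset V)) (w : Finset V → ℝ) (v : V) : ℝ :=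
  ∑ e ∈ G, w e * chi v e

/-- the weighted codegree of two vertices -/
noncomputable def cod (G : Finset (Finset V)) (w : Finset V → ℝ) (u v : V) : ℝ :=
  ∑ e ∈ G, w e * (chi u e * chi v e)

/-- the edges that survive the removal of the vertices in `o` -/
def surv (G : Finset (Finset V)) (o : Finset V) : Finset (Finset V) :=
  G.filter (fun e => Disjoint e o)

/-- penalty function -/
noncomputable def pen (y : ℝ) : ℝ := (max (y - 1) 0) ^ 2

lemma chi_nonneg (v : V) (e : Finset V) : 0 ≤ chi v e := by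
  unfold chi; split_ifs <;> norm_num

lemma chi_le_one (v : V) (e : Finset V) : chi v e ≤ 1 := by
  unfold chi; split_ifs <;> norm_num

lemma chi_mul_self (v : V) (e : Finset V) : chi v e * chi v e = chi v e := by
  unfold chi; split_ifs <;> norm_num

lemma dj_nonneg (S o : Finset V) : 0 ≤ dj S o := by
  unfold dj; split_ifs <;> norm_num

lemma dj_le_one (S o : Finset V) : dj S o ≤ 1 := by
  unfold dj; split_ifs <;> norm_num

lemma sum_chi_eq_card (S o : Finset V) : ∑ u ∈ S, chi u o = ((S ∩ o).card : ℝ) := by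
  unfold chi
  rw [Finset.sum_ite, Finset.sum_const_zero, add_zero, Finset.sum_const, nsmul_eq_mul, mul_one,
    Finset.filter_mem_eq_inter]

lemma dj_ge (S o : Finset V) : 1 - ∑ u ∈ S, chi u o ≤ dj S o := by
  rw [sum_chi_eq_card]
  unfold dj
  split_ifs with h
  · have : (0:ℝ) ≤ ((S ∩ o).card : ℝ) := Nat.cast_nonneg _
    linarith
  · have h1 : (S ∩ o).Nonempty := by
      rwa [Finset.not_disjoint_iff_nonempty_inter] at h
    have : (1:ℝ) ≤ ((S ∩ o).card : ℝ) := by exact_mod_cast h1.card_pos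
    linarith

lemma dj_le (S o : Finset V) : dj S o ≤ (1 - ∑ u ∈ S, chi u o) ^ 2 := by
  unfold dj
  split_ifs with h
  · rw [sum_chi_eq_card, Finset.disjoint_iff_inter_eq_empty.mp h]; simp
  · positivity

lemma sum_surv (G : Finset (Finset V)) (o : Finset V) (f : Finset V → ℝ) :
    ∑ e ∈ surv G o, f e = ∑ e ∈ G, f e * dj e o := by
  unfold surv dj
  rw [Finset.sum_filter]
  refine Finset.sum_congr rfl fun e _ => ?_
  split_ifs <;> simp

lemma load_nonneg {G : Finset (Finset V)} {w : Finset V → ℝ} (hw : ∀ e ∈ G, 0 ≤ w e) (v : V) :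
    0 ≤ load G w v :=
  Finset.sum_nonneg fun e he => mul_nonneg (hw e he) (chi_nonneg _ _)

lemma cod_nonneg {G : Finset (Finset V)} {w : Finset V → ℝ} (hw : ∀ e ∈ G, 0 ≤ w e) (u v : V) :
    0 ≤ cod G w u v :=
  Finset.sum_nonneg fun e he => mul_nonneg (hw e he) (mul_nonneg (chi_nonneg _ _) (chi_nonneg _ _))

lemma cod_surv_le {G : Finset (Finset V)} {w : Finset V → ℝ} (hw : ∀ e ∈ G, 0 ≤ w e) (o : Finset V)
    {g : ℝ} (hg : 0 ≤ g) (u v : V) :
    cod (surv G o) (fun e => g * w e) u v ≤ g * cod G w u v := by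
  unfold cod
  rw [sum_surv, Finset.mul_sum]
  refine Finset.sum_le_sum fun e he => ?_
  have h1 : 0 ≤ g * w e * (chi u e * chi v e) :=
    mul_nonneg (mul_nonneg hg (hw e he)) (mul_nonneg (chi_nonneg _ _) (chi_nonneg _ _))
  have h2 := dj_le_one e o
  nlinarith

lemma pen_nonneg (y : ℝ) : 0 ≤ pen y := sq_nonneg _

lemma pen_mono {y z : ℝ} (h : y ≤ z) : pen y ≤ pen z := by
  unfold pen
  have h1 : max (y - 1) 0 ≤ max (z - 1) 0 := max_le_max (by linarith) le_rfl
  have h2 : 0 ≤ max (y - 1) 0 := le_max_right _ _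
  nlinarith

lemma pen_add_le (y D : ℝ) : pen (y + D) ≤ pen y + 2 * max (y - 1) 0 * D + D ^ 2 := by
  unfold pen
  have h0 : 0 ≤ max (y - 1) 0 := le_max_right _ _
  have h1 : y - 1 ≤ max (y - 1) 0 := le_max_left _ _
  have h2 : max (y + D - 1) 0 ≤ |max (y - 1) 0 + D| :=
    max_le (le_trans (by linarith) (le_abs_self _)) (abs_nonneg _)
  have h3 : 0 ≤ max (y + D - 1) 0 := le_max_right _ _
  have h4 : (max (y + D - 1) 0) ^ 2 ≤ |max (y - 1) 0 + D| ^ 2 := by
    exact pow_le_pow_left₀ h3 h2 2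
  rw [sq_abs] at h4
  nlinarith

variable [Fintype V]

lemma sum_chi_univ (e : Finset V) : ∑ v, chi v e = (e.card : ℝ) := by
  rw [sum_chi_eq_card]; simp

lemma sum_load {G : Finset (Finset V)} {w : Finset V → ℝ} {r : ℕ} (hG : ∀ e ∈ G, e.card = r) :
    ∑ v, load G w v = r * ∑ e ∈ G, w e := by
  unfold load
  rw [Finset.sum_comm, Finset.mul_sum]
  refine Finset.sum_congr rfl fun e he => ?_
  rw [← Finset.mul_sum, sum_chi_univ, hG e he]; ring

lemma sum_cod {G : Finset (Finset V)} {w : Finset V → ℝ} {r : ℕ} (hG : ∀ e ∈ G, e.card = r) (u : V) :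
    ∑ v, cod G w u v = r * load G w u := by
  unfold load cod
  rw [Finset.sum_comm, Finset.mul_sum]
  refine Finset.sum_congr rfl fun e he => ?_
  rw [← Finset.mul_sum, ← Finset.mul_sum, sum_chi_univ, hG e he]; ring

lemma sum_mem_eq (S : Finset V) (f : V → ℝ) : ∑ u ∈ S, f u = ∑ u, chi u S * f u := by
  unfold chi
  simp only [ite_mul, one_mul, zero_mul]
  rw [← Finset.sum_filter]; simp

section step

variable {p : Finset V → ℝ} {m : V → ℝ} {N η : ℝ}

/-- expected total weight after a step -/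
lemma stepA {G : Finset (Finset V)} {w : Finset V → ℝ} (hw : ∀ e ∈ G, 0 ≤ w e)
    (hp0 : ∀ o, 0 ≤ p o) (hp1 : ∑ o, p o = 1)
    (hP1 : ∀ v, ∑ o, p o * chi v o = m v / N) :
    ∑ e ∈ G, w e - ∑ v, load G w v * (m v / N) ≤ ∑ o, p o * ∑ e ∈ surv G o, w e := by
  have h1 : ∀ o, ∑ e ∈ G, w e * (1 - ∑ v, chi v e * chi v o) ≤ ∑ e ∈ surv G o, w e := by
    intro o
    rw [sum_surv]
    refine Finset.sum_le_sum fun e he => ?_
    refine mul_le_mul_of_nonneg_left ?_ (hw e he)
    rw [← sum_mem_eq]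
    exact dj_ge e o
  have h2 : ∑ o, p o * ∑ e ∈ G, w e * (1 - ∑ v, chi v e * chi v o)
      = ∑ e ∈ G, w e - ∑ v, load G w v * (m v / N) := by
    have h3 : ∀ o, p o * ∑ e ∈ G, w e * (1 - ∑ v, chi v e * chi v o)
        = p o * ∑ e ∈ G, w e - ∑ v, load G w v * (p o * chi v o) := by
      intro o
      unfold load
      simp only [mul_sub, mul_one, Finset.sum_sub_distrib, Finset.mul_sum, Finset.sum_mul]
      congr 1
      rw [Finset.sum_comm]
      refine Finset.sum_congr rfl fun v _ => Finset.sum_congr rfl fun e _ => by ring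
    simp only [h3, Finset.sum_sub_distrib]
    rw [← Finset.sum_mul, hp1, one_mul, Finset.sum_comm]
    congr 1
    refine Finset.sum_congr rfl fun v _ => ?_
    rw [← Finset.mul_sum, hP1]
  rw [← h2]
  exact Finset.sum_le_sum fun o _ => mul_le_mul_of_nonneg_left (h1 o) (hp0 o)

/-- probability that a small set is missed -/
lemma exp_dj_le {r : ℕ} (hN : 0 < N) (hη : 0 ≤ η)
    (hp0 : ∀ o, 0 ≤ p o) (hp1 : ∑ o, p o = 1)
    (hP1 : ∀ v, ∑ o, p o * chi v o = m v / N) (hm : ∀ v, 1 ≤ m v)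
    (hP2 : ∀ u v, u ≠ v → ∑ o, p o * (chi u o * chi v o) ≤ η / N)
    (S : Finset V) (hS : S.card ≤ r) :
    ∑ o, p o * dj S o ≤ 1 - S.card / N + r ^ 2 * η / N := by
  have h1 : ∑ o, p o * dj S o ≤ ∑ o, p o * (1 - ∑ u ∈ S, chi u o) ^ 2 :=
    Finset.sum_le_sum fun o _ => mul_le_mul_of_nonneg_left (dj_le S o) (hp0 o)
  have h2 : ∀ o, p o * (1 - ∑ u ∈ S, chi u o) ^ 2
      = p o - 2 * ∑ u ∈ S, p o * chi u o + ∑ u ∈ S, ∑ v ∈ S, p o * (chi u o * chi v o) := by
    intro o
    have : ∑ u ∈ S, ∑ v ∈ S, p o * (chi u o * chi v o)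
        = p o * ((∑ u ∈ S, chi u o) * ∑ u ∈ S, chi u o) := by
      rw [Finset.sum_mul_sum, Finset.mul_sum]
      refine Finset.sum_congr rfl fun u _ => ?_
      rw [Finset.mul_sum]
    rw [this, ← Finset.mul_sum]; ring
  have h3 : ∑ o, ∑ u ∈ S, p o * chi u o = ∑ u ∈ S, m u / N := by
    rw [Finset.sum_comm]; exact Finset.sum_congr rfl fun u _ => hP1 u
  have h4 : ∑ o, ∑ u ∈ S, ∑ v ∈ S, p o * (chi u o * chi v o)
      ≤ ∑ u ∈ S, (m u / N + r * η / N) := by
    rw [Finset.sum_comm]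
    refine Finset.sum_le_sum fun u hu => ?_
    rw [Finset.sum_comm, ← Finset.add_sum_erase S _ hu]
    refine add_le_add ?_ ?_
    · simp only [chi_mul_self]; exact (hP1 u).le
    · calc ∑ v ∈ S.erase u, ∑ o, p o * (chi u o * chi v o) ≤ ∑ v ∈ S.erase u, η / N :=
            Finset.sum_le_sum fun v hv => hP2 u v (Finset.ne_of_mem_erase hv).symm
        _ = (S.erase u).card * (η / N) := by rw [Finset.sum_const, nsmul_eq_mul]
        _ ≤ r * (η / N) := by
            refine mul_le_mul_of_nonneg_right ?_ (by positivity)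
            exact_mod_cast (Finset.card_erase_le).trans hS
        _ = r * η / N := by ring
  have h5 : (S.card : ℝ) / N ≤ ∑ u ∈ S, m u / N := by
    calc (S.card : ℝ) / N = ∑ u ∈ S, 1 / N := by
          rw [Finset.sum_const, nsmul_eq_mul]; ring
      _ ≤ _ := Finset.sum_le_sum fun u _ => div_le_div_of_nonneg_right (hm u) hN.le
  have h6 : ∑ u ∈ S, (m u / N + r * η / N) ≤ ∑ u ∈ S, m u / N + r ^ 2 * η / N := by
    rw [Finset.sum_add_distrib, Finset.sum_const, nsmul_eq_mul]
    have : (S.card : ℝ) ≤ r := by exact_mod_cast hS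
    have h7 : (S.card : ℝ) * (r * η / N) ≤ r * (r * η / N) :=
      mul_le_mul_of_nonneg_right this (by positivity)
    have h8 : (r : ℝ) * (r * η / N) = r ^ 2 * η / N := by ring
    linarith
  simp only [h2, Finset.sum_add_distrib, Finset.sum_sub_distrib] at h1
  rw [← Finset.mul_sum, h3, hp1] at h1
  linarith

/-- the loss of load at `v` caused by removing `o` -/
noncomputable def loss (G : Finset (Finset V)) (w : Finset V → ℝ) (v : V) (o : Finset V) : ℝ :=
  ∑ e ∈ G, w e * chi v e * (1 - dj (e.erase v) o)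

omit [Fintype V] in
lemma loss_nonneg {G : Finset (Finset V)} {w : Finset V → ℝ} (hw : ∀ e ∈ G, 0 ≤ w e) (v : V)
    (o : Finset V) : 0 ≤ loss G w v o :=
  Finset.sum_nonneg fun e he => mul_nonneg (mul_nonneg (hw e he) (chi_nonneg _ _))
    (sub_nonneg.mpr (dj_le_one _ _))

omit [Fintype V] in
lemma load_surv_le {G : Finset (Finset V)} {w : Finset V → ℝ} (hw : ∀ e ∈ G, 0 ≤ w e) (v : V)
    (o : Finset V) {g : ℝ} (hg : 0 ≤ g) :
    load (surv G o) (fun e => g * w e) v ≤ g * (load G w v - loss G w v o) := by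
  unfold load loss
  rw [sum_surv, ← Finset.sum_sub_distrib, Finset.mul_sum]
  refine Finset.sum_le_sum fun e he => ?_
  have h1 : 0 ≤ g * w e * chi v e := mul_nonneg (mul_nonneg hg (hw e he)) (chi_nonneg _ _)
  have h2 : dj e o ≤ dj (e.erase v) o := by
    unfold dj
    by_cases h : Disjoint e o
    · rw [if_pos h, if_pos (h.mono_left (Finset.erase_subset _ _))]
    · rw [if_neg h]; split_ifs <;> norm_num
  nlinarith

lemma loss_le {G : Finset (Finset V)} {w : Finset V → ℝ} (hw : ∀ e ∈ G, 0 ≤ w e) (v : V)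
    (o : Finset V) : loss G w v o ≤ ∑ u ∈ univ.erase v, cod G w u v * chi u o := by
  unfold loss cod
  simp only [Finset.sum_mul]
  rw [Finset.sum_comm]
  refine Finset.sum_le_sum fun e he => ?_
  have h1 : 0 ≤ w e * chi v e := mul_nonneg (hw e he) (chi_nonneg _ _)
  have h2 := dj_ge (e.erase v) o
  have h3 : ∑ u ∈ e.erase v, chi u o = ∑ u ∈ univ.erase v, chi u e * chi u o := by
    have : e.erase v = (univ.erase v).filter (fun u => u ∈ e) := by
      ext u; simp [and_comm]
    rw [this, Finset.sum_filter]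
    refine Finset.sum_congr rfl fun u _ => ?_
    unfold chi; split_ifs <;> simp
  have h4 : ∑ u ∈ univ.erase v, w e * (chi u e * chi v e) * chi u o
      = w e * chi v e * ∑ u ∈ univ.erase v, chi u e * chi u o := by
    rw [Finset.mul_sum]; exact Finset.sum_congr rfl fun u _ => by ring
  rw [h4, ← h3]
  exact mul_le_mul_of_nonneg_left (by linarith) h1

lemma loss_le_const {G : Finset (Finset V)} {w : Finset V → ℝ} (hw : ∀ e ∈ G, 0 ≤ w e) (v : V)
    (o : Finset V) {r : ℕ} (ho : o.card ≤ r) (hη : 0 ≤ η)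
    (hc : ∀ u v, u ≠ v → cod G w u v ≤ η) : loss G w v o ≤ r * η := by
  refine (loss_le hw v o).trans ?_
  calc ∑ u ∈ univ.erase v, cod G w u v * chi u o ≤ ∑ u ∈ univ.erase v, η * chi u o :=
        Finset.sum_le_sum fun u hu =>
          mul_le_mul_of_nonneg_right (hc u v (Finset.ne_of_mem_erase hu)) (chi_nonneg _ _)
    _ ≤ ∑ u, η * chi u o :=
        Finset.sum_le_sum_of_subset_of_nonneg (Finset.erase_subset _ _)
          fun u _ _ => mul_nonneg hη (chi_nonneg _ _)
    _ = η * o.card := by rw [← Finset.mul_sum, sum_chi_univ]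
    _ ≤ η * r := mul_le_mul_of_nonneg_left (by exact_mod_cast ho) hη
    _ = r * η := mul_comm _ _

lemma exp_loss_ge {G : Finset (Finset V)} {w : Finset V → ℝ} {r : ℕ} (hw : ∀ e ∈ G, 0 ≤ w e)
    (hG : ∀ e ∈ G, e.card = r) (hN : 0 < N) (hη : 0 ≤ η)
    (hp0 : ∀ o, 0 ≤ p o) (hp1 : ∑ o, p o = 1)
    (hP1 : ∀ v, ∑ o, p o * chi v o = m v / N) (hm : ∀ v, 1 ≤ m v)
    (hP2 : ∀ u v, u ≠ v → ∑ o, p o * (chi u o * chi v o) ≤ η / N) (v : V) :
    load G w v * ((r - 1) / N - r ^ 2 * η / N) ≤ ∑ o, p o * loss G w v o := by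
  unfold loss load
  simp only [Finset.mul_sum]
  rw [Finset.sum_comm, Finset.sum_mul]
  refine Finset.sum_le_sum fun e he => ?_
  have h1 : ∑ o, p o * (w e * chi v e * (1 - dj (e.erase v) o))
      = w e * chi v e * (1 - ∑ o, p o * dj (e.erase v) o) := by
    conv_rhs => rw [← hp1, ← Finset.sum_sub_distrib, Finset.mul_sum]
    exact Finset.sum_congr rfl fun o _ => by ring
  rw [h1]
  by_cases hv : v ∈ e
  · refine mul_le_mul_of_nonneg_left ?_ (mul_nonneg (hw e he) (chi_nonneg _ _))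
    have h2 := exp_dj_le (r := r) hN hη hp0 hp1 hP1 hm hP2 (e.erase v)
      (Finset.card_erase_le.trans (hG e he).le)
    have h3 : ((e.erase v).card : ℝ) = r - 1 := by
      rw [Finset.card_erase_of_mem hv, hG e he, Nat.cast_sub]
      · simp
      · rw [← hG e he]; exact Finset.card_pos.mpr ⟨v, hv⟩
    rw [h3] at h2
    linarith
  · simp [chi, hv]

lemma sum_exp_loss_le {G : Finset (Finset V)} {w : Finset V → ℝ} {r : ℕ} (hw : ∀ e ∈ G, 0 ≤ w e)
    (hG : ∀ e ∈ G, e.card = r) (hN : 0 < N)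
    (hp0 : ∀ o, 0 ≤ p o)
    (hP1 : ∀ v, ∑ o, p o * chi v o = m v / N) (hm : ∀ v, 1 ≤ m v) (hm2 : ∀ v, load G w v ≤ m v) :
    ∑ v, ∑ o, p o * loss G w v o ≤ r / N * ∑ v, m v ^ 2 := by
  have h1 : ∀ v, ∑ o, p o * loss G w v o ≤ ∑ u, cod G w u v * (m u / N) := by
    intro v
    calc ∑ o, p o * loss G w v o ≤ ∑ o, p o * ∑ u, cod G w u v * chi u o := by
          refine Finset.sum_le_sum fun o _ => mul_le_mul_of_nonneg_left ?_ (hp0 o)
          refine (loss_le hw v o).trans ?_
          exact Finset.sum_le_sum_of_subset_of_nonneg (Finset.erase_subset _ _)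
            fun u _ _ => mul_nonneg (cod_nonneg hw _ _) (chi_nonneg _ _)
      _ = ∑ u, cod G w u v * (m u / N) := by
          simp only [Finset.mul_sum]
          rw [Finset.sum_comm]
          refine Finset.sum_congr rfl fun u _ => ?_
          rw [← hP1, Finset.mul_sum]
          exact Finset.sum_congr rfl fun o _ => by ring
  refine (Finset.sum_le_sum fun v _ => h1 v).trans ?_
  rw [Finset.sum_comm, Finset.mul_sum]
  refine Finset.sum_le_sum fun u _ => ?_
  rw [← Finset.sum_mul, sum_cod hG]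
  have h2 : 0 ≤ m u / N := div_nonneg (by linarith [hm u]) hN.le
  have h3 : (r : ℝ) * load G w u * (m u / N) ≤ r * m u * (m u / N) :=
    mul_le_mul_of_nonneg_right (mul_le_mul_of_nonneg_left (hm2 u) (Nat.cast_nonneg _)) h2
  refine h3.trans (le_of_eq ?_)
  ring

/-- expected penalty after a step -/
lemma stepB {G : Finset (Finset V)} {w : Finset V → ℝ} {r : ℕ} (hr : 1 ≤ r)
    (hw : ∀ e ∈ G, 0 ≤ w e)
    (hG : ∀ e ∈ G, e.card = r) (hN : 0 < N) (hrN : (r : ℝ) ≤ N) (hη : 0 ≤ η)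
    (hc : ∀ u v, u ≠ v → cod G w u v ≤ η)
    (hp0 : ∀ o, 0 ≤ p o) (hp1 : ∑ o, p o = 1) (hsz : ∀ o, p o ≠ 0 → o.card ≤ r)
    (hP1 : ∀ v, ∑ o, p o * chi v o = m v / N) (hm : ∀ v, m v = max (load G w v) 1)
    (hP2 : ∀ u v, u ≠ v → ∑ o, p o * (chi u o * chi v o) ≤ η / N) :
    ∑ o, p o * ∑ v, pen (load (surv G o) (fun e => (1 + (r - 1) / N) * w e) v)
      ≤ ∑ v, pen (load G w v) + (6 * r ^ 2 * η + r ^ 2 / N) / N * ∑ v, m v ^ 2 := by
  set g : ℝ := 1 + (r - 1) / N with hg
  have hr' : (1:ℝ) ≤ r := by exact_mod_cast hr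
  have hg0 : 0 ≤ ((r:ℝ) - 1) / N := div_nonneg (by linarith) hN.le
  have hg1 : ((r:ℝ) - 1) / N ≤ 1 := by rw [div_le_one hN]; linarith
  have hg2 : ((r:ℝ) - 1) / N ≤ r / N := div_le_div_of_nonneg_right (by linarith) hN.le
  have hm1 : ∀ v, 1 ≤ m v := fun v => by rw [hm]; exact le_max_right _ _
  have hm2 : ∀ v, load G w v ≤ m v := fun v => by rw [hm]; exact le_max_left _ _
  have key : ∀ v, ∑ o, p o * pen (load (surv G o) (fun e => g * w e) v)
      ≤ pen (load G w v) + (2 * r ^ 2 * η + r ^ 2 / N) / N * m v ^ 2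
        + 4 * r * η * ∑ o, p o * loss G w v o := by
    intro v
    set d := load G w v with hd
    set x := max (d - 1) 0 with hx
    have hd0 : 0 ≤ d := load_nonneg hw v
    have hx0 : 0 ≤ x := le_max_right _ _
    have hxm : x ≤ m v := max_le (by linarith [hm2 v]) (by linarith [hm1 v])
    have hdm : d ≤ m v := hm2 v
    have h1 : ∀ o, p o * pen (load (surv G o) (fun e => g * w e) v)
        ≤ p o * (pen d + 2 * x * ((r - 1) / N * d) + ((r - 1) / N * d) ^ 2)
          - 2 * x * (p o * loss G w v o) + 4 * r * η * (p o * loss G w v o) := by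
      intro o
      by_cases hpo : p o = 0
      · simp [hpo]
      have hL0 := loss_nonneg hw v o
      have hL1 := loss_le_const hw v o (hsz o hpo) hη hc
      set L := loss G w v o
      have h2 : pen (load (surv G o) (fun e => g * w e) v) ≤ pen (d + ((r - 1) / N * d - g * L)) := by
        refine pen_mono ((load_surv_le hw v o (by linarith)).trans (le_of_eq ?_))
        rw [← hd, hg]; ring
      have h3 := pen_add_le d ((r - 1) / N * d - g * L)
      rw [← hx] at h3
      have h4 : L ≤ g * L := by nlinarith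
      have h5 : 0 ≤ (r - 1) / N * d := mul_nonneg hg0 hd0
      have h6 : (g * L) ^ 2 ≤ 4 * r * η * L := by
        have : g * L ≤ 2 * L := by nlinarith
        have h7 : 0 ≤ g * L := by nlinarith
        nlinarith
      have h8 : ((r - 1) / N * d - g * L) ^ 2 ≤ ((r - 1) / N * d) ^ 2 + (g * L) ^ 2 := by
        have h7 : 0 ≤ g * L := by nlinarith
        nlinarith [mul_nonneg h5 h7]
      have h9 : 2 * x * ((r - 1) / N * d - g * L) ≤ 2 * x * ((r - 1) / N * d) - 2 * x * L := by
        nlinarith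
      have h10 : pen (load (surv G o) (fun e => g * w e) v)
          ≤ (pen d + 2 * x * ((r - 1) / N * d) + ((r - 1) / N * d) ^ 2) - 2 * x * L
            + 4 * r * η * L := by linarith
      have := mul_le_mul_of_nonneg_left h10 (hp0 o)
      linarith
    refine (Finset.sum_le_sum fun o _ => h1 o).trans ?_
    rw [Finset.sum_add_distrib, Finset.sum_sub_distrib, ← Finset.sum_mul, ← Finset.mul_sum,
      ← Finset.mul_sum, hp1, one_mul]
    have h2 := exp_loss_ge hw hG hN hη hp0 hp1 hP1 hm1 hP2 v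
    rw [← hd] at h2
    have h3 : 2 * x * (d * ((r - 1) / N - r ^ 2 * η / N)) ≤ 2 * x * ∑ o, p o * loss G w v o :=
      mul_le_mul_of_nonneg_left h2 (by linarith)
    have h4 : x * d ≤ m v ^ 2 := by nlinarith
    have h5 : ((r - 1) / N * d) ^ 2 ≤ (r / N * m v) ^ 2 := by
      refine pow_le_pow_left₀ (mul_nonneg hg0 hd0) ?_ 2
      exact mul_le_mul hg2 hdm hd0 (by positivity)
    have h6 : 0 ≤ r ^ 2 * η / N := by positivity
    have h7 : x * d * (r ^ 2 * η / N) ≤ m v ^ 2 * (r ^ 2 * η / N) :=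
      mul_le_mul_of_nonneg_right h4 h6
    have h8 : (2 * r ^ 2 * η + r ^ 2 / N) / N * m v ^ 2
        = 2 * (m v ^ 2 * (r ^ 2 * η / N)) + (r / N * m v) ^ 2 := by
      field_simp
    rw [h8]
    nlinarith
  simp only [Finset.mul_sum]
  rw [Finset.sum_comm]
  refine (Finset.sum_le_sum fun v _ => key v).trans ?_
  rw [Finset.sum_add_distrib, Finset.sum_add_distrib, ← Finset.mul_sum, ← Finset.mul_sum,
    ← Finset.mul_sum]
  have h1 := sum_exp_loss_le hw hG hN hp0 hP1 hm1 hm2
  have h2 := mul_le_mul_of_nonneg_left h1 (show 0 ≤ 4 * r * η by positivity)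
  have h3 : (6 * r ^ 2 * η + r ^ 2 / N) / N * ∑ v, m v ^ 2
      = (2 * r ^ 2 * η + r ^ 2 / N) / N * ∑ v, m v ^ 2 + 4 * r * η * (r / N * ∑ v, m v ^ 2) := by
    ring
  rw [h3]
  linarith

end step

end Pool.Agent.Lib.MP_d738f8_co
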