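import Mathlib
import Pool.Agent.Lib.MP_d738f8_co.NibbleStep

/-! A fractional matching with small codegrees can be rounded to a matching. -/

namespace Pool.Agent.Lib.MP_d738f8_co

open Finset

variable {V : Type*} [DecidableEq V] [Fintype V]

/-- the distribution of the removed set -/
noncomputable def dist1 (G : Finset (Finset V)) (w : Finset V → ℝ) (s : V → ℝ) (N p0 : ℝ)
    (o : Finset V) : ℝ :=
  (if o ∈ G then w o / N else 0) + (∑ v, if o = {v} then s v / N else 0) + (if o = ∅ then p0 else 0)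

lemma sum_dist1 (G : Finset (Finset V)) (w : Finset V → ℝ) (s : V → ℝ) (N p0 : ℝ)
    (f : Finset V → ℝ) :
    ∑ o, dist1 G w s N p0 o * f o
      = (∑ e ∈ G, w e * f e) / N + (∑ v, s v * f {v}) / N + p0 * f ∅ := by
  unfold dist1
  simp only [add_mul, Finset.sum_add_distrib, ite_mul, zero_mul, Finset.sum_mul]
  congr 1
  · congr 1
    · rw [← Finset.sum_filter, Finset.sum_div]
      simp only [Finset.filter_mem_eq_inter, Finset.univ_inter]
      exact Finset.sum_congr rfl fun e _ => by ring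
    · rw [Finset.sum_comm, Finset.sum_div]
      refine Finset.sum_congr rfl fun v _ => ?_
      rw [Finset.sum_ite_eq' univ ({v} : Finset V)]
      simp only [Finset.mem_univ, if_true]; ring
  · rw [Finset.sum_ite_eq' univ (∅ : Finset V)]; simp

lemma exists_ge_avg {Ω : Type*} [Fintype Ω] (p F : Ω → ℝ) (hp0 : ∀ o, 0 ≤ p o)
    (hp1 : ∑ o, p o = 1) : ∃ o, ∑ o, p o * F o ≤ F o := by
  have hne : (univ : Finset Ω).Nonempty := by
    by_contra h
    rw [Finset.not_nonempty_iff_eq_empty] at h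
    rw [h] at hp1; simp at hp1
  obtain ⟨o, -, ho⟩ := Finset.exists_max_image univ F hne
  refine ⟨o, ?_⟩
  calc ∑ o', p o' * F o' ≤ ∑ o', p o' * F o :=
        Finset.sum_le_sum fun o' _ => mul_le_mul_of_nonneg_left (ho o' (mem_univ _)) (hp0 o')
    _ = F o := by rw [← Finset.sum_mul, hp1, one_mul]

lemma arith1 {r N γ Λ a g lam κ B W Φ n Q X Y Z F η k : ℝ} (hr : 1 ≤ r) (hN : 0 < N) (hrN : r ≤ N)
    (hγ : 0 < γ) (hη : 0 ≤ η) (ha0 : 0 ≤ a) (ha1 : a ≤ 1) (hg : g = 1 + (r - 1) / N)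
    (hlam : 2 ≤ lam) (hΛ : lam ≤ Λ) (hκ : κ = 24 * r ^ 2 * η + 4 * r ^ 2 / N)
    (hB : B = (2 * γ + Λ * κ + 4 * r ^ 2 / N) / N) (hW0 : 0 ≤ W) (hW : W ≤ 4 * n) (hn : 0 ≤ n)
    (hΦ : 0 ≤ Φ) (hQ : Q ≤ 4 * n)
    (hX : W / N ≤ X) (hY : W - (r * W + (γ * n + (1 + 1 / γ) * Φ)) / N ≤ Y)
    (hZ : Z ≤ Φ + (6 * r ^ 2 * η + r ^ 2 / N) / N * Q)
    (hF : X + a * g * Y - lam * Z - k * B * n ≤ F) :
    (1 / N + (1 - 1 / N) * a) * W - (lam + 2 * (1 + 1 / γ) / N) * Φ - (k + 1) * B * n ≤ F := by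
  have hg0 : 0 ≤ (r - 1) / N := div_nonneg (by linarith) hN.le
  have hg1 : (r - 1) / N ≤ 1 := by rw [div_le_one hN]; linarith
  have hκ0 : 0 ≤ κ := by rw [hκ]; positivity
  have hag : 0 ≤ a * g := mul_nonneg ha0 (by linarith)
  have hag2 : a * g ≤ 2 := by
    have : a * g ≤ 1 * g := mul_le_mul_of_nonneg_right ha1 (by linarith)
    linarith
  have h1 : a * g * (W - (r * W + (γ * n + (1 + 1 / γ) * Φ)) / N) ≤ a * g * Y :=
    mul_le_mul_of_nonneg_left hY hag
  have h2 : (6 * r ^ 2 * η + r ^ 2 / N) / N * Q ≤ κ / N * n := by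
    calc (6 * r ^ 2 * η + r ^ 2 / N) / N * Q
        ≤ (6 * r ^ 2 * η + r ^ 2 / N) / N * (4 * n) :=
          mul_le_mul_of_nonneg_left hQ (by positivity)
      _ = κ / N * n := by rw [hκ]; ring
  have h3 : lam * Z ≤ lam * (Φ + κ / N * n) := mul_le_mul_of_nonneg_left (by linarith) (by linarith)
  have h4 : lam * (κ / N * n) ≤ Λ * (κ / N * n) :=
    mul_le_mul_of_nonneg_right hΛ (by positivity)
  have h5 : a * g * ((γ * n + (1 + 1 / γ) * Φ) / N) ≤ 2 * ((γ * n + (1 + 1 / γ) * Φ) / N) :=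
    mul_le_mul_of_nonneg_right hag2 (by positivity)
  have h6 : g * (1 - r / N) = 1 - 1 / N - r * (r - 1) / N ^ 2 := by
    rw [hg]; field_simp; ring
  have h7 : a * W * (r * (r - 1) / N ^ 2) ≤ 4 * n * (r ^ 2 / N ^ 2) := by
    refine mul_le_mul ?_ ?_ ?_ (by positivity)
    · have : a * W ≤ 1 * W := mul_le_mul_of_nonneg_right ha1 hW0
      linarith
    · exact div_le_div_of_nonneg_right (by nlinarith) (by positivity)
    · exact div_nonneg (mul_nonneg (by linarith) (by linarith)) (by positivity)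
  have h8 : a * g * (W - (r * W + (γ * n + (1 + 1 / γ) * Φ)) / N)
      = a * W * (g * (1 - r / N)) - a * g * ((γ * n + (1 + 1 / γ) * Φ) / N) := by ring
  have h9 : B * n = 2 * (γ * n / N) + Λ * (κ / N * n) + 4 * n * (r ^ 2 / N ^ 2) := by
    rw [hB]; field_simp
  rw [h6] at h8
  have h10 : 2 * ((γ * n + (1 + 1 / γ) * Φ) / N)
      = 2 * (γ * n / N) + 2 * (1 + 1 / γ) / N * Φ := by ring
  have h11 : (1 / N + (1 - 1 / N) * a) * W = W / N + a * W * (1 - 1 / N) := by ring
  have h12 : a * W * (1 - 1 / N - r * (r - 1) / N ^ 2)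
      = a * W * (1 - 1 / N) - a * W * (r * (r - 1) / N ^ 2) := by ring
  have h13 : (lam + 2 * (1 + 1 / γ) / N) * Φ = lam * Φ + 2 * (1 + 1 / γ) / N * Φ := by ring
  have h14 : (k + 1) * B * n = k * B * n + B * n := by ring
  have h15 : lam * (Φ + κ / N * n) = lam * Φ + lam * (κ / N * n) := by ring
  rw [h11, h13, h14]
  linarith

lemma arith2 {d x γ : ℝ} (hγ : 0 < γ) (hx0 : 0 ≤ x) (h1 : d ≤ 1 + x) :
    d * (1 + x) ≤ d + (γ * 1 + (1 + 1 / γ) * x ^ 2) := by
  have h2 : x ≤ γ + 1 / γ * x ^ 2 := by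
    have h3 : γ + 1 / γ * x ^ 2 - x = ((x - γ) ^ 2 + γ * x) / γ := by
      field_simp; ring
    have h4 : 0 ≤ ((x - γ) ^ 2 + γ * x) / γ := by positivity
    linarith
  nlinarith

lemma arith3 (x : ℝ) : 1 + x ≤ 3 / 2 * 1 + 1 / 2 * x ^ 2 := by nlinarith [sq_nonneg (x - 1)]

lemma arith4 (x : ℝ) : (1 + x) ^ 2 ≤ 2 * 1 + 2 * x ^ 2 := by nlinarith [sq_nonneg (x - 1)]

/-- the inductive statement -/
lemma nibble_ind {r : ℕ} (hr : 1 ≤ r) {N η γ Λ : ℝ} (hN : 0 < N) (hrN : (r : ℝ) ≤ N)
    (hn : 4 * (Fintype.card V : ℝ) ≤ N) (hη : 0 ≤ η) (hγ : 0 < γ) (k : ℕ)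
    (hΛ : 2 + 2 * k * (1 + 1 / γ) / N ≤ Λ) :
    ∀ (G : Finset (Finset V)) (w : Finset V → ℝ), (∀ e ∈ G, e.card = r) → (∀ e ∈ G, 0 ≤ w e) →
      (∀ u v, u ≠ v → (1 + (r - 1) / N) ^ k * cod G w u v ≤ η) →
      ∃ M ⊆ G, (M : Set (Finset V)).PairwiseDisjoint id ∧
        (1 - (1 - 1 / N) ^ k) * ∑ e ∈ G, w e - (2 + 2 * k * (1 + 1 / γ) / N) * ∑ v, pen (load G w v)
          - k * ((2 * γ + Λ * (24 * r ^ 2 * η + 4 * r ^ 2 / N) + 4 * r ^ 2 / N) / N)
            * Fintype.card V ≤ M.card := by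
  have hr' : (1:ℝ) ≤ r := by exact_mod_cast hr
  have hN1 : 1 ≤ N := hr'.trans hrN
  have hiN0 : 0 < 1 / N := by positivity
  have hiN1 : 1 / N ≤ 1 := by rw [div_le_one hN]; exact hN1
  have hg0 : 0 ≤ ((r:ℝ) - 1) / N := div_nonneg (by linarith) hN.le
  have hg1 : ((r:ℝ) - 1) / N ≤ 1 := by rw [div_le_one hN]; linarith
  induction k with
  | zero =>
    intro G w hG hw hc
    refine ⟨∅, Finset.empty_subset _, by simp, ?_⟩
    have : 0 ≤ ∑ v, pen (load G w v) := Finset.sum_nonneg fun v _ => pen_nonneg _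
    simp
    linarith
  | succ k ih =>
    intro G w hG hw hc
    have hstep : 0 ≤ 2 * (1 + 1 / γ) / N := by positivity
    have hsplit : 2 + 2 * ((k + 1 : ℕ) : ℝ) * (1 + 1 / γ) / N
        = 2 + 2 * k * (1 + 1 / γ) / N + 2 * (1 + 1 / γ) / N := by push_cast; ring
    have hΛ' : 2 + 2 * k * (1 + 1 / γ) / N ≤ Λ := by rw [hsplit] at hΛ; linarith
    have ih' := ih hΛ'
    clear ih
    set g : ℝ := 1 + (r - 1) / N with hg
    set n : ℝ := (Fintype.card V : ℝ) with hndef
    have hn0 : 0 ≤ n := Nat.cast_nonneg _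
    set lam : ℝ := 2 + 2 * k * (1 + 1 / γ) / N with hlam
    have hlam2 : 2 ≤ lam := by
      have : 0 ≤ 2 * k * (1 + 1 / γ) / N := by positivity
      linarith
    set κ : ℝ := 24 * r ^ 2 * η + 4 * r ^ 2 / N with hκ
    have hκ0 : 0 ≤ κ := by positivity
    set B : ℝ := (2 * γ + Λ * κ + 4 * r ^ 2 / N) / N with hB
    have hB0 : 0 ≤ B := by
      have : 0 ≤ Λ := by linarith
      positivity
    set a : ℝ := 1 - (1 - 1 / N) ^ k with ha
    have ha0 : 0 ≤ a := by
      have : (1 - 1 / N) ^ k ≤ 1 := pow_le_one₀ (by linarith) (by linarith)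
      linarith
    have ha1 : a ≤ 1 := by
      have : 0 ≤ (1 - 1 / N) ^ k := pow_nonneg (by linarith) _
      linarith
    have ha' : 1 - (1 - 1 / N) ^ (k + 1) = 1 / N + (1 - 1 / N) * a := by rw [ha]; ring
    rw [hsplit, ha']
    set W := ∑ e ∈ G, w e with hW
    set Φ := ∑ v, pen (load G w v) with hΦ
    have hW0 : 0 ≤ W := Finset.sum_nonneg hw
    have hΦ0 : 0 ≤ Φ := Finset.sum_nonneg fun v _ => pen_nonneg _
    set m : V → ℝ := fun v => max (load G w v) 1 with hm
    have hm1 : ∀ v, 1 ≤ m v := fun v => le_max_right _ _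
    have hm2 : ∀ v, load G w v ≤ m v := fun v => le_max_left _ _
    have hmx : ∀ v, m v = 1 + max (load G w v - 1) 0 := by
      intro v
      simp only [hm]
      rcases le_total (load G w v) 1 with h | h
      · rw [max_eq_right h, max_eq_right (by linarith)]; ring
      · rw [max_eq_left h, max_eq_left (by linarith)]; ring
    have hsumone : ∑ _v : V, (1:ℝ) = n := by simp [hndef]
    have hWl : W ≤ ∑ v, load G w v := by
      rw [sum_load hG]; exact le_mul_of_one_le_left hW0 hr'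
    have hlm : ∑ v, load G w v ≤ ∑ v, m v := Finset.sum_le_sum fun v _ => hm2 v
    have hmle : ∑ v, m v ≤ 3 / 2 * n + 1 / 2 * Φ := by
      rw [← hsumone, hΦ, Finset.mul_sum, Finset.mul_sum, ← Finset.sum_add_distrib]
      refine Finset.sum_le_sum fun v _ => ?_
      rw [hmx]; exact arith3 _
    have hQle : ∑ v, m v ^ 2 ≤ 2 * n + 2 * Φ := by
      rw [← hsumone, hΦ, Finset.mul_sum, Finset.mul_sum, ← Finset.sum_add_distrib]
      refine Finset.sum_le_sum fun v _ => ?_
      rw [hmx]; exact arith4 _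
    by_cases hcase : n ≤ Φ
    · refine ⟨∅, Finset.empty_subset _, by simp, ?_⟩
      have h1 : (1 / N + (1 - 1 / N) * a) * W ≤ W := by
        have h0 : (1 - 1 / N) * a ≤ (1 - 1 / N) * 1 :=
          mul_le_mul_of_nonneg_left ha1 (by linarith)
        exact mul_le_of_le_one_left hW0 (by linarith)
      have h2 : 2 * Φ ≤ (lam + 2 * (1 + 1 / γ) / N) * Φ :=
        mul_le_mul_of_nonneg_right (by linarith) hΦ0
      have h3 : 0 ≤ ((k + 1 : ℕ) : ℝ) * B * n := by positivity
      simp only [Finset.card_empty, Nat.cast_zero]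
      linarith
    push Not at hcase
    set s : V → ℝ := fun v => m v - load G w v with hs
    have hs0 : ∀ v, 0 ≤ s v := fun v => sub_nonneg.mpr (hm2 v)
    set p0 : ℝ := 1 - W / N - (∑ v, s v) / N with hp0def
    have hp00 : 0 ≤ p0 := by
      have h1 : ∑ v, s v = ∑ v, m v - ∑ v, load G w v := by
        simp only [hs]; rw [Finset.sum_sub_distrib]
      have h2 : W + ∑ v, s v ≤ N := by linarith
      have h3 : (W + ∑ v, s v) / N ≤ 1 := by rw [div_le_one hN]; exact h2
      rw [add_div] at h3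
      linarith
    set p := dist1 G w s N p0 with hp
    have hp0 : ∀ o, 0 ≤ p o := by
      intro o
      simp only [hp, dist1]
      refine add_nonneg (add_nonneg ?_ (Finset.sum_nonneg fun v _ => ?_)) ?_
      · split_ifs with h
        · exact div_nonneg (hw o h) hN.le
        · exact le_rfl
      · split_ifs with h
        · exact div_nonneg (hs0 v) hN.le
        · exact le_rfl
      · split_ifs with h
        · exact hp00
        · exact le_rfl
    have hp1 : ∑ o, p o = 1 := by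
      have := sum_dist1 G w s N p0 (fun _ => 1)
      simp only [mul_one] at this
      rw [this, hp0def]; ring
    have hsz : ∀ o, p o ≠ 0 → o.card ≤ r := by
      intro o ho
      by_contra hlt
      push Not at hlt
      apply ho
      simp only [hp, dist1]
      rw [if_neg, if_neg, Finset.sum_eq_zero]
      · simp
      · intro v _
        rw [if_neg]
        rintro rfl
        simp at hlt; omega
      · rintro rfl
        simp at hlt
      · intro h
        rw [hG o h] at hlt; omega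
    have hP1 : ∀ v, ∑ o, p o * chi v o = m v / N := by
      intro v
      rw [hp, sum_dist1]
      have h1 : ∑ u, s u * chi v {u} = s v := by
        unfold chi
        simp
      have h2 : chi v (∅ : Finset V) = 0 := by simp [chi]
      rw [h1, h2]
      change load G w v / N + _ + _ = _
      simp only [hs]; ring
    have hgk : 1 ≤ g ^ (k + 1) := one_le_pow₀ (by linarith)
    have hc' : ∀ u v, u ≠ v → cod G w u v ≤ η := by
      intro u v huv
      have h1 := hc u v huv
      have h2 := cod_nonneg hw u v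
      exact (le_mul_of_one_le_left h2 hgk).trans h1
    have hP2 : ∀ u v, u ≠ v → ∑ o, p o * (chi u o * chi v o) ≤ η / N := by
      intro u v huv
      rw [hp, sum_dist1]
      have h1 : ∑ x, s x * (chi u {x} * chi v {x}) = 0 := by
        refine Finset.sum_eq_zero fun x _ => ?_
        unfold chi
        by_cases h : u = x
        · subst h
          simp [huv.symm]
        · simp [h]
      have h2 : chi v (∅ : Finset V) = 0 := by simp [chi]
      rw [h1, h2]
      change cod G w u v / N + _ + _ ≤ _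
      have := div_le_div_of_nonneg_right (hc' u v huv) hN.le
      simpa using this
    have hA := stepA hw hp0 hp1 hP1
    have hBB := stepB hr hw hG hN hrN hη hc' hp0 hp1 hsz hP1 (fun v => rfl) hP2
    rw [← hg, ← hΦ] at hBB
    rw [← hW] at hA
    obtain ⟨o, ho⟩ := exists_ge_avg p (fun o => (if o ∈ G then (1:ℝ) else 0)
      + (a * ∑ e ∈ surv G o, g * w e
        - lam * ∑ v, pen (load (surv G o) (fun e => g * w e) v) - k * B * n)) hp0 hp1
    have hsub : surv G o ⊆ G := Finset.filter_subset _ _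
    obtain ⟨M, hM1, hM2, hM3⟩ := ih' (surv G o) (fun e => g * w e) (fun e he => hG e (hsub he))
      (fun e he => mul_nonneg (by linarith) (hw e (hsub he))) (by
        intro u v huv
        have h1 := cod_surv_le hw o (show 0 ≤ g by linarith) u v
        have h2 := hc u v huv
        have h3 : 0 ≤ g ^ k := pow_nonneg (by linarith) _
        calc g ^ k * cod (surv G o) (fun e => g * w e) u v ≤ g ^ k * (g * cod G w u v) :=
              mul_le_mul_of_nonneg_left h1 h3
          _ = g ^ (k + 1) * cod G w u v := by ring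
          _ ≤ η := h2)
    -- the expectation
    have hE : ∑ o, p o * ((if o ∈ G then (1:ℝ) else 0)
      + (a * ∑ e ∈ surv G o, g * w e
        - lam * ∑ v, pen (load (surv G o) (fun e => g * w e) v) - k * B * n))
        = ∑ o, p o * (if o ∈ G then (1:ℝ) else 0) + a * g * ∑ o, p o * ∑ e ∈ surv G o, w e
          - lam * ∑ o, p o * ∑ v, pen (load (surv G o) (fun e => g * w e) v)
          - k * B * n * ∑ o, p o := by
      rw [Finset.mul_sum, Finset.mul_sum, Finset.mul_sum, ← Finset.sum_add_distrib,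
        ← Finset.sum_sub_distrib, ← Finset.sum_sub_distrib]
      refine Finset.sum_congr rfl fun o _ => ?_
      rw [← Finset.mul_sum]; ring
    have hE1 : W / N ≤ ∑ o, p o * (if o ∈ G then (1:ℝ) else 0) := by
      rw [hp, sum_dist1]
      have h1 : ∑ e ∈ G, w e * (if e ∈ G then (1:ℝ) else 0) = W :=
        Finset.sum_congr rfl fun e he => by rw [if_pos he, mul_one]
      have h2 : 0 ≤ (∑ v, s v * (if ({v} : Finset V) ∈ G then (1:ℝ) else 0)) / N := by
        refine div_nonneg (Finset.sum_nonneg fun v _ => mul_nonneg (hs0 v) ?_) hN.le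
        split_ifs <;> norm_num
      have h3 : 0 ≤ p0 * (if (∅ : Finset V) ∈ G then (1:ℝ) else 0) := by
        refine mul_nonneg hp00 ?_
        split_ifs <;> norm_num
      rw [h1]; linarith
    have hE2 : ∑ v, load G w v * (m v / N) ≤ (r * W + (γ * n + (1 + 1 / γ) * Φ)) / N := by
      rw [hW, ← sum_load hG, ← hsumone, hΦ, Finset.mul_sum, Finset.mul_sum,
        ← Finset.sum_add_distrib, ← Finset.sum_add_distrib, Finset.sum_div]
      refine Finset.sum_le_sum fun v _ => ?_
      rw [← mul_div_assoc]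
      refine div_le_div_of_nonneg_right ?_ hN.le
      have h1 := hm2 v
      rw [hmx] at h1 ⊢
      exact arith2 hγ (le_max_right _ _) h1
    rw [hE, hp1] at ho
    have hfinal : (1 / N + (1 - 1 / N) * a) * W - (lam + 2 * (1 + 1 / γ) / N) * Φ
        - ((k + 1 : ℕ) : ℝ) * B * n ≤ (if o ∈ G then (1:ℝ) else 0) + M.card := by
      push_cast
      refine arith1 hr' hN hrN hγ hη ha0 ha1 hg hlam2 hΛ' hκ hB hW0 (by linarith) hn0 hΦ0
        (show ∑ v, m v ^ 2 ≤ 4 * n by linarith) hE1 (le_trans (by linarith) hA) hBB ?_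
      linarith
    by_cases hoG : o ∈ G
    · have hoM : o ∉ M := by
        intro h
        have h1 := (Finset.mem_filter.mp (hM1 h)).2
        rw [Finset.disjoint_self_iff_empty] at h1
        have := hG o hoG
        rw [h1] at this; simp at this; omega
      refine ⟨insert o M, ?_, ?_, ?_⟩
      · exact Finset.insert_subset hoG (hM1.trans hsub)
      · rw [Finset.coe_insert]
        refine hM2.insert ?_
        intro e he _
        exact ((Finset.mem_filter.mp (hM1 he)).2).symm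
      · rw [Finset.card_insert_of_notMem hoM]
        rw [if_pos hoG] at hfinal
        push_cast at hfinal ⊢
        linarith
    · refine ⟨M, hM1.trans hsub, hM2, ?_⟩
      rw [if_neg hoG] at hfinal
      linarith

lemma pow_small {N : ℝ} (hN : 1 ≤ N) (K : ℕ) : (1 - 1 / N) ^ K * (1 + K / N) ≤ 1 := by
  have hN0 : 0 < N := by linarith
  have h0 : 0 ≤ 1 - 1 / N := by
    have : 1 / N ≤ 1 := by rw [div_le_one hN0]; exact hN
    linarith
  have h1 : (1 - 1 / N) ^ K ≤ Real.exp (-(1 / N)) ^ K :=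
    pow_le_pow_left₀ h0 (by have := Real.add_one_le_exp (-(1 / N)); linarith) K
  have h2 : 1 + K / N ≤ Real.exp (K / N) := by have := Real.add_one_le_exp (K / N); linarith
  rw [← Real.exp_nat_mul] at h1
  calc (1 - 1 / N) ^ K * (1 + K / N) ≤ Real.exp (K * -(1 / N)) * Real.exp (K / N) :=
        mul_le_mul h1 h2 (by positivity) (Real.exp_pos _).le
    _ = 1 := by rw [← Real.exp_add]; simp [div_eq_mul_inv]

omit [DecidableEq V] [Fintype V] in
/-- Rounding a fractional matching with small codegrees. -/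
theorem nibble {r : ℕ} (hr : 1 ≤ r) {β : ℝ} (hβ : 0 < β) :
    ∃ η : ℝ, 0 < η ∧ ∀ (V : Type) [DecidableEq V] [Fintype V] (G : Finset (Finset V))
      (w : Finset V → ℝ), (∀ e ∈ G, e.card = r) → (∀ e ∈ G, 0 ≤ w e) → (∀ v, load G w v ≤ 1) →
      (∀ u v, u ≠ v → cod G w u v ≤ η) →
      ∃ M ⊆ G, (M : Set (Finset V)).PairwiseDisjoint id ∧
        ∑ e ∈ G, w e - β * Fintype.card V ≤ M.card := by
  have hr' : (1:ℝ) ≤ r := by exact_mod_cast hr
  obtain ⟨T, hT⟩ := exists_nat_gt (4 / β)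
  have hT0 : (0:ℝ) < T := lt_trans (by positivity) hT
  set γ : ℝ := β / (8 * T) with hγ
  have hγ0 : 0 < γ := by positivity
  set Λ : ℝ := 2 + 2 * T * (1 + 1 / γ) with hΛ
  have hΛ0 : 0 < Λ := by positivity
  set η : ℝ := β / (4 * T * Λ * 24 * r ^ 2) with hη
  have hη0 : 0 < η := by positivity
  obtain ⟨N0, hN0⟩ := exists_nat_gt (16 * T * (Λ + 1) * r ^ 2 / β)
  refine ⟨η * Real.exp (-(r * T)), by positivity, ?_⟩
  intro V _ _ G w hG hw hl hc
  set n : ℕ := Fintype.card V with hn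
  set N : ℕ := 4 * n + r + N0 with hN
  have hNr : (N : ℝ) = 4 * n + r + N0 := by rw [hN]; push_cast; ring
  have hn0 : (0:ℝ) ≤ n := Nat.cast_nonneg _
  have hN00 : (0:ℝ) ≤ N0 := Nat.cast_nonneg _
  have hNpos : (0:ℝ) < N := by linarith
  have hKN : ((T * N : ℕ) : ℝ) / N = T := by push_cast; field_simp
  have hlam : 2 + 2 * ((T * N : ℕ) : ℝ) * (1 + 1 / γ) / N = Λ := by
    rw [hΛ]; push_cast; field_simp
  obtain ⟨M, hM1, hM2, hM3⟩ := nibble_ind (V := V) hr (N := N) (η := η) (γ := γ) (Λ := Λ) hNpos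
    (by linarith) (by linarith) hη0.le hγ0 (T * N) hlam.le G w hG hw (by
      intro u v huv
      have h1 : (1 + ((r:ℝ) - 1) / N) ^ (T * N) ≤ Real.exp (r / N) ^ (T * N) := by
        refine pow_le_pow_left₀ (add_nonneg zero_le_one (div_nonneg (by linarith) hNpos.le)) ?_ _
        have h2 := Real.add_one_le_exp (r / N)
        have h3 : ((r:ℝ) - 1) / N ≤ r / N := div_le_div_of_nonneg_right (by linarith) hNpos.le
        linarith
      rw [← Real.exp_nat_mul] at h1
      have h4 : ((T * N : ℕ) : ℝ) * (r / N) = r * T := by push_cast; field_simp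
      rw [h4] at h1
      calc _ ≤ Real.exp (r * T) * (η * Real.exp (-(r * T))) :=
            mul_le_mul h1 (hc u v huv) (cod_nonneg hw u v) (Real.exp_pos _).le
        _ = η := by rw [mul_left_comm, ← Real.exp_add]; simp)
  refine ⟨M, hM1, hM2, le_trans ?_ hM3⟩
  have hΦ : ∑ v, pen (load G w v) = 0 := by
    refine Finset.sum_eq_zero fun v _ => ?_
    unfold pen
    rw [max_eq_right (by linarith [hl v])]; simp
  have hW0 : 0 ≤ ∑ e ∈ G, w e := Finset.sum_nonneg hw
  have hW : ∑ e ∈ G, w e ≤ n := by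
    have h1 : ∑ v, load G w v ≤ ∑ _v : V, (1:ℝ) := Finset.sum_le_sum fun v _ => hl v
    rw [sum_load hG] at h1
    have h2 : ∑ _v : V, (1:ℝ) = n := by simp [hn]
    have h3 := le_mul_of_one_le_left hW0 hr'
    linarith
  have hp := pow_small (N := N) (by linarith) (T * N)
  rw [hKN] at hp
  have hp0 : 0 ≤ (1 - 1 / (N:ℝ)) ^ (T * N) := by
    refine pow_nonneg ?_ _
    have : 1 / (N:ℝ) ≤ 1 := by rw [div_le_one hNpos]; linarith
    linarith
  set P := (1 - 1 / (N:ℝ)) ^ (T * N)
  have hP : P ≤ β / 4 := by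
    have h1 : 4 < T * β := by rwa [div_lt_iff₀ hβ] at hT
    by_contra h
    push Not at h
    nlinarith
  have hb : ((T * N : ℕ) : ℝ) * ((2 * γ + Λ * (24 * r ^ 2 * η + 4 * r ^ 2 / N) + 4 * r ^ 2 / N) / N)
      ≤ 3 * β / 4 := by
    have h1 : ((T * N : ℕ) : ℝ)
        * ((2 * γ + Λ * (24 * r ^ 2 * η + 4 * r ^ 2 / N) + 4 * r ^ 2 / N) / N)
        = T * (2 * γ) + T * Λ * 24 * r ^ 2 * η + 4 * T * (Λ + 1) * r ^ 2 / N := by
      push_cast; field_simp; ring
    have h2 : T * (2 * γ) = β / 4 := by rw [hγ]; field_simp; ring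
    have h3 : T * Λ * 24 * r ^ 2 * η = β / 4 := by rw [hη]; field_simp
    have h4 : 4 * T * (Λ + 1) * r ^ 2 / N ≤ β / 4 := by
      rw [div_lt_iff₀ hβ] at hN0
      rw [div_le_iff₀ hNpos]
      have : (N0:ℝ) * β ≤ N * β := mul_le_mul_of_nonneg_right (by linarith) hβ.le
      linarith
    linarith
  rw [hΦ]
  have h5 := mul_le_mul_of_nonneg_right hb hn0
  have h6 : P * ∑ e ∈ G, w e ≤ β / 4 * n := mul_le_mul hP hW hW0 (by positivity)
  linarith

end Pool.Agent.Lib.MP_d738f8_co
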