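import Mathlib

/-! Duality for packing programs, rounding of basic solutions, greedy selection. -/

namespace Pool.Agent.Lib.MP_d738f8_co

open Finset

/-- strong duality for a packing linear program -/
theorem packing_duality {I J : Type} [Fintype I] [DecidableEq I] [DecidableEq J] (G : Finset J)
    (A : I → J → ℝ) (b : I → ℝ) (hb : ∀ i, 0 < b i) (T : ℝ)
    (h : ∀ w : J → ℝ, (∀ e ∈ G, 0 ≤ w e) → (∀ i, ∑ e ∈ G, w e * A i e ≤ b i) → ∑ e ∈ G, w e ≤ T) :
    ∃ y : I → ℝ, (∀ i, 0 ≤ y i) ∧ (∀ e ∈ G, 1 ≤ ∑ i, y i * A i e) ∧ ∑ i, y i * b i ≤ T := by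
  have hT : 0 ≤ T := by
    have := h 0 (fun _ _ => le_rfl) (fun i => by simpa using (hb i).le)
    simpa using this
  set K : Set ((I → ℝ) × ℝ) := {z | ∃ w : J → ℝ, (∀ e ∈ G, 0 ≤ w e) ∧
    (∀ i, ∑ e ∈ G, w e * A i e < z.1 i) ∧ z.2 < ∑ e ∈ G, w e} with hK
  have hconv : Convex ℝ K := by
    rintro z ⟨w, hw0, hw1, hw2⟩ z' ⟨w', hw0', hw1', hw2'⟩ a c ha hc hac
    have key : ∀ x y x' y' : ℝ, x < y → x' < y' → a * x + c * x' < a * y + c * y' := by
      intro x y x' y' h1 h2
      rcases ha.eq_or_lt with h0 | h0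
      · have : c = 1 := by linarith
        rw [← h0, this]; linarith
      · nlinarith [mul_le_mul_of_nonneg_left h2.le hc, mul_lt_mul_of_pos_left h1 h0]
    refine ⟨fun e => a * w e + c * w' e,
      fun e he => add_nonneg (mul_nonneg ha (hw0 e he)) (mul_nonneg hc (hw0' e he)), fun i => ?_, ?_⟩
    · have := key _ _ _ _ (hw1 i) (hw1' i)
      simp only [Prod.fst_add, Prod.smul_fst, Pi.add_apply, Pi.smul_apply, smul_eq_mul]
      refine lt_of_eq_of_lt ?_ this
      rw [Finset.mul_sum, Finset.mul_sum, ← Finset.sum_add_distrib]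
      exact Finset.sum_congr rfl fun e _ => by ring
    · have := key _ _ _ _ hw2 hw2'
      simp only [Prod.snd_add, Prod.smul_snd, smul_eq_mul]
      refine lt_of_lt_of_eq this ?_
      rw [Finset.mul_sum, Finset.mul_sum, ← Finset.sum_add_distrib]
  have hopen : IsOpen K := by
    have : K = ⋃ w : {w : J → ℝ // ∀ e ∈ G, 0 ≤ w e},
        ((⋂ i, {z : (I → ℝ) × ℝ | ∑ e ∈ G, w.1 e * A i e < z.1 i})
          ∩ {z : (I → ℝ) × ℝ | z.2 < ∑ e ∈ G, w.1 e}) := by
      ext z
      simp only [hK, Set.mem_ofPred_eq, Set.mem_iUnion, Set.mem_inter_iff, Set.mem_iInter]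
      constructor
      · rintro ⟨w, h0, h1, h2⟩; exact ⟨⟨w, h0⟩, h1, h2⟩
      · rintro ⟨w, h1, h2⟩; exact ⟨w.1, w.2, h1, h2⟩
    rw [this]
    refine isOpen_iUnion fun w => IsOpen.inter (isOpen_iInter_of_finite fun i => ?_) ?_
    · exact isOpen_lt continuous_const (by fun_prop)
    · exact isOpen_lt continuous_snd continuous_const
  have hnot : (b, T) ∉ K := by
    rintro ⟨w, h0, h1, h2⟩
    exact absurd (h w h0 fun i => (h1 i).le) (not_le.mpr h2)
  obtain ⟨f, hf⟩ := geometric_hahn_banach_open_point hconv hopen hnot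
  set y : I → ℝ := fun i => - f (Pi.single i 1, 0) with hy
  set c : ℝ := f (0, 1) with hc
  have hform : ∀ (z : I → ℝ) (τ : ℝ), f (z, τ) = - ∑ i, y i * z i + c * τ := by
    intro z τ
    have : ((z, τ) : (I → ℝ) × ℝ)
        = ∑ i, z i • ((Pi.single i 1, 0) : (I → ℝ) × ℝ) + τ • ((0, 1) : (I → ℝ) × ℝ) := by
      ext i
      · simp [Prod.fst_sum, Finset.sum_apply, Pi.single_apply]
      · simp [Prod.snd_sum]
    rw [this, map_add, map_sum, map_smul, ← Finset.sum_neg_distrib]
    simp only [map_smul, smul_eq_mul, hy, hc]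
    congr 1
    · exact Finset.sum_congr rfl fun i _ => by ring
    · ring
  have hray : ∀ α β' δ : ℝ, (∀ t : ℝ, 0 ≤ t → α + t * β' < δ) → β' ≤ 0 := by
    intro α β' δ hh
    by_contra hpos
    push Not at hpos
    have h0 := hh 0 le_rfl
    have h1 := hh ((δ - α) / β') (div_nonneg (by linarith) hpos.le)
    rw [div_mul_cancel₀ _ hpos.ne'] at h1
    linarith
  have hbase : ((b, -1) : (I → ℝ) × ℝ) ∈ K :=
    ⟨0, fun _ _ => le_rfl, fun i => by simpa using hb i, by simp⟩
  have hcpos : 0 < c := by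
    have h1 := hf _ hbase
    rw [hform, hform] at h1
    by_contra hh
    push Not at hh
    nlinarith
  have hy0 : ∀ i, 0 ≤ y i := by
    intro i
    have := hray (f (b, -1)) (- y i) (f (b, T)) (by
      intro t ht
      have h1 : ((b + t • Pi.single i 1, -1) : (I → ℝ) × ℝ) ∈ K := by
        refine ⟨0, fun _ _ => le_rfl, fun k => ?_, by simp⟩
        have h2 := hb k
        have h3 : 0 ≤ t * (Pi.single i (1:ℝ) : I → ℝ) k := by
          refine mul_nonneg ht ?_
          rw [Pi.single_apply]; split_ifs <;> norm_num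
        simp only [Pi.zero_apply, zero_mul, Finset.sum_const_zero, Pi.add_apply, Pi.smul_apply,
          smul_eq_mul]
        linarith
      have h2 := hf _ h1
      have h3 : ((b + t • Pi.single i 1, -1) : (I → ℝ) × ℝ)
          = (b, -1) + t • (Pi.single i 1, 0) := by simp
      rw [h3, map_add, map_smul] at h2
      simpa [hy] using h2)
    linarith
  have hA : ∀ e ∈ G, c ≤ ∑ i, y i * A i e := by
    intro e he
    have := hray (f (b, -1)) (f (fun i => A i e, 1)) (f (b, T)) (by
      intro t ht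
      have h1 : ((b, -1) + t • (fun i => A i e, 1) : (I → ℝ) × ℝ) ∈ K := by
        refine ⟨fun x => if x = e then t else 0, fun x _ => by dsimp only; split_ifs; exacts [ht, le_rfl],
          fun k => ?_, ?_⟩
        · simp only [ite_mul, zero_mul, Finset.sum_ite_eq', he, if_true]
          have := hb k
          simp; linarith
        · simp only [Finset.sum_ite_eq', he, if_true]
          simp
      have h2 := hf _ h1
      rw [map_add, map_smul] at h2
      simpa using h2)
    rw [hform] at this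
    linarith
  have hfin : 0 ≤ f (b, T) := by
    by_contra hneg
    push Not at hneg
    have hlt : f (b, -1) < 0 := (hf _ hbase).trans hneg
    set t := f (b, T) / f (b, -1) with ht
    have ht0 : 0 < t := div_pos_of_neg_of_neg hneg hlt
    have h1 : (t • ((b, -1) : (I → ℝ) × ℝ)) ∈ K := by
      refine ⟨0, fun _ _ => le_rfl, fun k => ?_, ?_⟩
      · simpa using mul_pos ht0 (hb k)
      · simpa using ht0
    have h2 := hf _ h1
    rw [map_smul, smul_eq_mul, ht, div_mul_cancel₀ _ hlt.ne] at h2
    exact lt_irrefl _ h2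
  refine ⟨fun i => y i / c, fun i => div_nonneg (hy0 i) hcpos.le, fun e he => ?_, ?_⟩
  · have : ∑ i, y i / c * A i e = (∑ i, y i * A i e) / c := by
      rw [Finset.sum_div]; exact Finset.sum_congr rfl fun i _ => by ring
    rw [this, le_div_iff₀ hcpos, one_mul]; exact hA e he
  · have : ∑ i, y i / c * b i = (∑ i, y i * b i) / c := by
      rw [Finset.sum_div]; exact Finset.sum_congr rfl fun i _ => by ring
    rw [this, div_le_iff₀ hcpos]
    rw [hform] at hfin
    linarith

/-- rounding a nonnegative combination subject to `q` linear constraints -/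
theorem rounding {ι : Type} [Fintype ι] [DecidableEq ι] {q : ℕ} (a : ι → Fin q → ℝ)
    (ha : ∀ i j, 0 ≤ a i j) (k : ℕ) :
    ∀ ν : ι → ℝ, (∀ i, 0 ≤ ν i) → (univ.filter fun i => ν i ≠ 0).card ≤ k →
      ∃ m : ι → ℕ, (∀ i, ν i = 0 → m i = 0) ∧ ∑ i, ν i - q ≤ ∑ i, (m i : ℝ) ∧
        ∀ j, ∑ i, (m i : ℝ) * a i j ≤ ∑ i, ν i * a i j := by
  induction k using Nat.strong_induction_on with
  | _ k ih =>
  intro ν hν hk
  set S := univ.filter fun i => ν i ≠ 0 with hS
  by_cases hq : S.card ≤ q
  · refine ⟨fun i => ⌊ν i⌋₊, fun i hi => by simp [hi], ?_, fun j => ?_⟩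
    · have h1 : ∑ i, ν i ≤ ∑ i, ((⌊ν i⌋₊ : ℝ) + if ν i ≠ 0 then 1 else 0) := by
        refine Finset.sum_le_sum fun i _ => ?_
        split_ifs with h
        · exact (Nat.lt_floor_add_one _).le
        · push Not at h; simp [h]
      rw [Finset.sum_add_distrib, ← Finset.sum_filter, ← hS, Finset.sum_const, nsmul_eq_mul,
        mul_one] at h1
      have h2 : (S.card : ℝ) ≤ q := by exact_mod_cast hq
      linarith
    · exact Finset.sum_le_sum fun i _ => mul_le_mul_of_nonneg_right (Nat.floor_le (hν i)) (ha i j)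
  push Not at hq
  -- a nontrivial linear relation supported on S
  obtain ⟨d, hd0, hdS, hda, hdsum⟩ : ∃ d : ι → ℝ, d ≠ 0 ∧ (∀ i, ν i = 0 → d i = 0) ∧
      (∀ j, ∑ i, d i * a i j = 0) ∧ 0 ≤ ∑ i, d i := by
    have hnl : ¬ LinearIndependent ℝ (fun i : S => a i) := by
      intro hli
      have := hli.fintype_card_le_finrank
      simp at this
      omega
    rw [Fintype.not_linearIndependent_iff] at hnl
    obtain ⟨g, hg, i0, hi0⟩ := hnl
    set d : ι → ℝ := fun i => if h : i ∈ S then g ⟨i, h⟩ else 0 with hd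
    have h1 : d ≠ 0 := by
      intro h
      have := congrFun h i0
      simp only [hd, i0.2, dif_pos, Pi.zero_apply] at this
      exact hi0 this
    have h2 : ∀ i, ν i = 0 → d i = 0 := by
      intro i hi
      simp only [hd]
      rw [dif_neg]
      simp [hS, hi]
    have h3 : ∀ j, ∑ i, d i * a i j = 0 := by
      intro j
      have h4 := congrFun hg j
      simp only [Finset.sum_apply, Pi.smul_apply, smul_eq_mul, Pi.zero_apply] at h4
      rw [← h4, ← Finset.sum_subset (Finset.subset_univ S), ← Finset.sum_coe_sort S]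
      · refine Finset.sum_congr rfl fun i _ => ?_
        simp only [hd, i.2, dif_pos]
      · intro i _ hi
        simp only [hd]; rw [dif_neg hi, zero_mul]
    rcases le_total 0 (∑ i, d i) with h | h
    · exact ⟨d, h1, h2, h3, h⟩
    · refine ⟨-d, neg_ne_zero.mpr h1, fun i hi => by simp [h2 i hi], fun j => ?_, ?_⟩
      · simp only [Pi.neg_apply, neg_mul, Finset.sum_neg_distrib, h3 j, neg_zero]
      · simp only [Pi.neg_apply, Finset.sum_neg_distrib]; linarith
  by_cases hneg : ∃ i, d i < 0
  · set Ng := univ.filter fun i => d i < 0 with hNg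
    have hne : Ng.Nonempty := by
      obtain ⟨i, hi⟩ := hneg
      exact ⟨i, by simp [hNg, hi]⟩
    obtain ⟨i0, hi0, hmin⟩ := Finset.exists_min_image Ng (fun i => ν i / (- d i)) hne
    have hdi0 : d i0 < 0 := by simpa [hNg] using hi0
    set τ := ν i0 / (- d i0) with hτ
    have hτ0 : 0 ≤ τ := div_nonneg (hν _) (by linarith)
    have hν' : ∀ i, 0 ≤ ν i + τ * d i := by
      intro i
      by_cases hi : d i < 0
      · have h1 := hmin i (by simp [hNg, hi])
        rw [le_div_iff₀ (by linarith)] at h1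
        linarith
      · push Not at hi
        exact add_nonneg (hν i) (mul_nonneg hτ0 hi)
    have hz : ν i0 + τ * d i0 = 0 := by
      rw [hτ]; field_simp [hdi0.ne]; ring
    have hi0S : i0 ∈ S := by
      simp only [hS, Finset.mem_filter, Finset.mem_univ, true_and]
      intro h
      exact hdi0.ne (hdS i0 h)
    have hsub : (univ.filter fun i => ν i + τ * d i ≠ 0) ⊆ S.erase i0 := by
      intro i hi
      simp only [Finset.mem_filter, Finset.mem_univ, true_and] at hi
      refine Finset.mem_erase.mpr ⟨fun h => hi (h ▸ hz), ?_⟩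
      simp only [hS, Finset.mem_filter, Finset.mem_univ, true_and]
      intro h
      apply hi
      rw [h, hdS i h]; simp
    have hlt : (S.erase i0).card < k := lt_of_lt_of_le (Finset.card_erase_lt_of_mem hi0S) hk
    obtain ⟨m, hm1, hm2, hm3⟩ := ih _ hlt (fun i => ν i + τ * d i) hν' (Finset.card_le_card hsub)
    refine ⟨m, fun i hi => hm1 i (by simp [hi, hdS i hi]), ?_, fun j => ?_⟩
    · rw [Finset.sum_add_distrib, ← Finset.mul_sum] at hm2
      have := mul_nonneg hτ0 hdsum
      linarith
    · refine (hm3 j).trans (le_of_eq ?_)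
      simp only [add_mul, mul_assoc, Finset.sum_add_distrib]
      rw [← Finset.mul_sum, hda j]; simp
  · push Not at hneg
    obtain ⟨i0, hi0⟩ := Function.ne_iff.mp hd0
    have hpos : 0 < d i0 := lt_of_le_of_ne (hneg i0) (Ne.symm hi0)
    have ha0 : ∀ j, a i0 j = 0 := by
      intro j
      have h1 := (Finset.sum_eq_zero_iff_of_nonneg
        (fun i _ => mul_nonneg (hneg i) (ha i j))).mp (hda j) i0 (mem_univ _)
      rcases mul_eq_zero.mp h1 with h | h
      · exact absurd h hpos.ne'
      · exact h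
    refine ⟨Pi.single i0 ⌈∑ i, ν i⌉₊, fun i hi => ?_, ?_, fun j => ?_⟩
    · rw [Pi.single_apply, if_neg]
      rintro rfl
      exact hpos.ne' (hdS _ hi)
    · have h0 : ∑ k, ((Pi.single i0 ⌈∑ i, ν i⌉₊ : ι → ℕ) k : ℝ) = ⌈∑ i, ν i⌉₊ := by
        rw [Finset.sum_eq_single i0 (fun i _ hi => by simp [hi]) (by simp)]
        simp only [Pi.single_eq_same]
      rw [h0]
      have h1 := Nat.le_ceil (∑ i, ν i)
      have h2 : (0:ℝ) ≤ q := Nat.cast_nonneg _
      linarith
    · rw [Finset.sum_eq_single i0 (fun i _ hi => by simp [hi]) (by simp), ha0, mul_zero]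
      exact Finset.sum_nonneg fun i _ => mul_nonneg (hν i) (ha i j)

/-- choosing `r` elements from a multiset -/
theorem choose_tuple {V : Type} [Fintype V] [DecidableEq V] (m : V → ℕ) (r : ℕ)
    (hr : r ≤ ∑ v, m v) : ∃ v : Fin r → V, (∀ i, m (v i) ≠ 0) ∧
      ∀ x : V → ℝ, (∀ u, 0 ≤ x u) → ∑ i, x (v i) ≤ ∑ u, (m u : ℝ) * x u := by
  have hcard : Fintype.card (Fin r) ≤ Fintype.card (Σ v : V, Fin (m v)) := by simpa using hr
  obtain ⟨f⟩ := Function.Embedding.nonempty_of_card_le hcard
  refine ⟨fun i => (f i).1, fun i => (f i).2.pos.ne', fun x hx => ?_⟩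
  calc ∑ i, x (f i).1 = ∑ z ∈ univ.map f, x z.1 := by rw [Finset.sum_map]
    _ ≤ ∑ z : (Σ v : V, Fin (m v)), x z.1 :=
        Finset.sum_le_sum_of_subset_of_nonneg (Finset.subset_univ _) fun z _ _ => hx _
    _ = ∑ u, (m u : ℝ) * x u := by
        rw [Fintype.sum_sigma]
        simp

/-- greedy selection of conflict-free subsets -/
theorem greedy_select {V ι : Type} [DecidableEq V] [Fintype V] [DecidableEq ι] [Fintype ι]
    (B : V → V → Prop) [DecidableRel B] (hB : ∀ u v, B u v → B v u) (Δ : ℝ) (hΔ : 1 ≤ Δ) (s : ℕ)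
    (C : ι → Finset V) (hdeg : ∀ i, ∀ u ∈ C i, ((univ.filter (B u)).card : ℝ) ≤ Δ)
    (hC : ∀ i, Fintype.card ι * s * Δ ≤ (C i).card) (S : Finset ι) :
    ∃ A : ι → Finset V, (∀ i ∈ S, A i ⊆ C i ∧ (A i).card = s) ∧
      ∀ i ∈ S, ∀ k ∈ S, i ≠ k → ∀ u ∈ A i, ∀ v ∈ A k, ¬ B u v := by
  induction S using Finset.induction_on with
  | empty => exact ⟨fun _ => ∅, by simp, by simp⟩
  | insert i S hi ih =>
    obtain ⟨A, hA1, hA2⟩ := ih
    set F : Finset V := S.biUnion fun k => (A k).biUnion fun u => univ.filter (B u) with hF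
    have hFc : (F.card : ℝ) ≤ S.card * (s * Δ) := by
      calc (F.card : ℝ) ≤ ∑ k ∈ S, (((A k).biUnion fun u => univ.filter (B u)).card : ℝ) := by
            exact_mod_cast Finset.card_biUnion_le
        _ ≤ ∑ _k ∈ S, s * Δ := by
            refine Finset.sum_le_sum fun k hk => ?_
            calc (((A k).biUnion fun u => univ.filter (B u)).card : ℝ)
                ≤ ∑ u ∈ A k, ((univ.filter (B u)).card : ℝ) := by
                  exact_mod_cast Finset.card_biUnion_le
              _ ≤ ∑ _u ∈ A k, Δ := Finset.sum_le_sum fun u hu => hdeg k u ((hA1 k hk).1 hu)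
              _ = s * Δ := by rw [Finset.sum_const, nsmul_eq_mul, (hA1 k hk).2]
        _ = S.card * (s * Δ) := by rw [Finset.sum_const, nsmul_eq_mul]
    have hScard : (S.card : ℝ) + 1 ≤ Fintype.card ι := by
      have h1 : (insert i S).card ≤ Fintype.card ι := Finset.card_le_univ _
      rw [Finset.card_insert_of_notMem hi] at h1
      exact_mod_cast h1
    have hs : s ≤ (C i \ F).card := by
      have h1 : ((C i).card : ℝ) ≤ (C i \ F).card + F.card := by
        exact_mod_cast Finset.card_le_card_sdiff_add_card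
      have h2 := hC i
      have h3 : (0:ℝ) ≤ s := Nat.cast_nonneg _
      have h4 : (s:ℝ) ≤ s * Δ := le_mul_of_one_le_right h3 hΔ
      have h5 : ((S.card : ℝ) + 1) * (s * Δ) ≤ Fintype.card ι * (s * Δ) :=
        mul_le_mul_of_nonneg_right hScard (by linarith)
      have : (s:ℝ) ≤ (C i \ F).card := by nlinarith
      exact_mod_cast this
    obtain ⟨D, hD1, hD2⟩ := Finset.exists_subset_card_eq hs
    have hDF : ∀ v ∈ D, ∀ k ∈ S, ∀ u ∈ A k, ¬ B u v := by
      intro v hv k hk u hu hb
      refine (Finset.mem_sdiff.mp (hD1 hv)).2 ?_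
      simp only [hF, Finset.mem_biUnion, Finset.mem_filter, Finset.mem_univ, true_and]
      exact ⟨k, hk, u, hu, hb⟩
    have hne : ∀ k ∈ S, k ≠ i := fun k hk h => hi (h ▸ hk)
    refine ⟨Function.update A i D, fun k hk => ?_, fun k hk l hl hkl u hu v hv => ?_⟩
    · rcases Finset.mem_insert.mp hk with rfl | hk
      · rw [Function.update_self]
        exact ⟨hD1.trans Finset.sdiff_subset, hD2⟩
      · rw [Function.update_of_ne (hne k hk)]; exact hA1 k hk
    · rcases Finset.mem_insert.mp hk with rfl | hk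
      · rcases Finset.mem_insert.mp hl with rfl | hl
        · exact absurd rfl hkl
        · rw [Function.update_self] at hu
          rw [Function.update_of_ne (hne l hl)] at hv
          exact fun hb => hDF u hu l hl v hv (hB _ _ hb)
      · rw [Function.update_of_ne (hne k hk)] at hu
        rcases Finset.mem_insert.mp hl with hl | hl
        · rw [hl, Function.update_self] at hv
          exact hDF v hv k hk u hu
        · rw [Function.update_of_ne (hne l hl)] at hv
          exact hA2 k hk l hl hkl u hu v hv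

end Pool.Agent.Lib.MP_d738f8_co
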