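import Mathlib
import Pool.Agent.Lib.MP_d738f8_co.Nibble
import Pool.Agent.Lib.MP_d738f8_co.Tools

/-! The main argument. -/

namespace Pool.Agent.Lib.MP_d738f8_co

open Finset

/-- a hypergraph with small matching number has a cheap cover by vertices and pairs -/
lemma dual_cover {V : Type} [DecidableEq V] [Fintype V] {r : ℕ} {η T : ℝ} (hη : 0 < η)
    (G : Finset (Finset V)) (hG : ∀ e ∈ G, e.card = r)
    (h : ∀ w : Finset V → ℝ, (∀ e ∈ G, 0 ≤ w e) → (∀ v, load G w v ≤ 1) →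
      (∀ u v, u ≠ v → cod G w u v ≤ η) → ∑ e ∈ G, w e ≤ T) :
    ∃ (x : V → ℝ) (y : V → V → ℝ), (∀ v, 0 ≤ x v) ∧ (∀ u v, 0 ≤ y u v) ∧
      ∑ v, x v + η * ∑ u, ∑ v, y u v ≤ T ∧
      ∀ θ : ℝ, 0 ≤ θ → ∀ e ∈ G, (∀ u ∈ e, ∀ v ∈ e, u ≠ v → y u v ≤ θ) →
        1 ≤ ∑ v ∈ e, x v + r ^ 2 * θ := by
  obtain ⟨y, hy0, hy1, hy2⟩ := packing_duality (I := V ⊕ (V × V)) G
    (fun i e => Sum.elim (fun v => chi v e)
      (fun z : V × V => if z.1 = z.2 then 0 else chi z.1 e * chi z.2 e) i)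
    (Sum.elim (fun _ => 1) (fun _ => η)) (by rintro (v | z) <;> simp [hη]) T (by
      intro w hw hc
      refine h w hw (fun v => hc (Sum.inl v)) (fun u v huv => ?_)
      have := hc (Sum.inr (u, v))
      simpa [huv, cod] using this)
  refine ⟨fun v => y (Sum.inl v), fun u v => y (Sum.inr (u, v)), fun v => hy0 _, fun u v => hy0 _,
    ?_, fun θ hθ e he hyθ => ?_⟩
  · rw [Fintype.sum_sum_type, Fintype.sum_prod_type] at hy2
    simp only [Sum.elim_inl, Sum.elim_inr, mul_one] at hy2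
    refine le_trans (le_of_eq ?_) hy2
    congr 1
    rw [Finset.mul_sum]
    refine Finset.sum_congr rfl fun u _ => ?_
    rw [Finset.mul_sum]
    exact Finset.sum_congr rfl fun v _ => mul_comm _ _
  · have h1 := hy1 e he
    rw [Fintype.sum_sum_type, Fintype.sum_prod_type] at h1
    simp only [Sum.elim_inl, Sum.elim_inr] at h1
    refine h1.trans (add_le_add (le_of_eq ?_) ?_)
    · rw [sum_mem_eq e]
      exact Finset.sum_congr rfl fun v _ => mul_comm _ _
    · calc _ ≤ ∑ u, ∑ v, θ * (chi u e * chi v e) := by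
            refine Finset.sum_le_sum fun u _ => Finset.sum_le_sum fun v _ => ?_
            by_cases huv : u = v
            · rw [if_pos huv, mul_zero]
              exact mul_nonneg hθ (mul_nonneg (chi_nonneg _ _) (chi_nonneg _ _))
            · rw [if_neg huv]
              by_cases hu : u ∈ e
              · by_cases hv : v ∈ e
                · exact mul_le_mul_of_nonneg_right (hyθ u hu v hv huv)
                    (mul_nonneg (chi_nonneg _ _) (chi_nonneg _ _))
                · simp [chi, hv]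
              · simp [chi, hu]
        _ = θ * ((∑ u, chi u e) * ∑ v, chi v e) := by
            rw [Finset.sum_mul_sum, Finset.mul_sum]
            exact Finset.sum_congr rfl fun u _ => by rw [Finset.mul_sum]
        _ = r ^ 2 * θ := by rw [sum_chi_univ, hG e he]; ring

/-- the fractional form of the matching Ramsey bound -/
lemma good_tuple {V : Type} [DecidableEq V] [Fintype V] {q r : ℕ} (V' : Finset V)
    (x : Fin q → V → ℝ) (hx : ∀ j v, 0 ≤ x j v) {T κ : ℝ} (hT : 0 < T) (hκ0 : 0 ≤ κ) (hκ1 : κ < 1)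
    (hX : ∀ j, ∑ v ∈ V', x j v ≤ T)
    (hbig : (r : ℝ) + q - 1 < κ / T * (V'.card + q * T - ∑ j, ∑ v ∈ V', x j v)) :
    ∃ v : Fin r → V, (∀ i, v i ∈ V') ∧ ∀ j, ∑ i, x j (v i) ≤ κ := by
  have hρ : 0 ≤ κ / T := div_nonneg hκ0 hT.le
  obtain ⟨m, hm1, hm2, hm3⟩ := rounding (ι := V ⊕ Fin q) (q := q)
    (fun i j => Sum.elim (fun v => x j v) (fun k => if k = j then 1 else 0) i)
    (by
      rintro (v | k) j
      · exact hx j v
      · simp only [Sum.elim_inr]; split_ifs <;> norm_num) _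
    (Sum.elim (fun v => κ / T * chi v V') (fun j => κ / T * (T - ∑ v ∈ V', x j v)))
    (by
      rintro (v | k)
      · exact mul_nonneg hρ (chi_nonneg _ _)
      · exact mul_nonneg hρ (sub_nonneg.mpr (hX k))) le_rfl
  have hm4 : ∀ j, ∑ v, (m (Sum.inl v) : ℝ) * x j v + m (Sum.inr j) ≤ κ := by
    intro j
    have h1 := hm3 j
    rw [Fintype.sum_sum_type, Fintype.sum_sum_type] at h1
    simp only [Sum.elim_inl, Sum.elim_inr, mul_ite, mul_one, mul_zero, Finset.sum_ite_eq',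
      Finset.mem_univ, if_true] at h1
    refine h1.trans (le_of_eq ?_)
    have h2 : ∑ v, κ / T * chi v V' * x j v = κ / T * ∑ v ∈ V', x j v := by
      rw [sum_mem_eq V', Finset.mul_sum]
      exact Finset.sum_congr rfl fun v _ => by ring
    rw [h2]; field_simp; ring
  have hm5 : ∀ j, 0 ≤ ∑ v, (m (Sum.inl v) : ℝ) * x j v := fun j =>
    Finset.sum_nonneg fun v _ => mul_nonneg (Nat.cast_nonneg _) (hx j v)
  have hm6 : ∀ j, m (Sum.inr j) = 0 := by
    intro j
    have h1 : (m (Sum.inr j) : ℝ) < 1 := by linarith [hm4 j, hm5 j]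
    have h2 : m (Sum.inr j) < 1 := by exact_mod_cast h1
    omega
  rw [Fintype.sum_sum_type, Fintype.sum_sum_type] at hm2
  simp only [Sum.elim_inl, Sum.elim_inr, hm6, Nat.cast_zero, Finset.sum_const_zero, add_zero] at hm2
  rw [← Finset.mul_sum, ← Finset.mul_sum, sum_chi_univ, Finset.sum_sub_distrib, Finset.sum_const,
    Finset.card_univ, Fintype.card_fin, nsmul_eq_mul] at hm2
  have hr : r ≤ ∑ v, m (Sum.inl v) := by
    have h1 : (r : ℝ) < ((∑ v, m (Sum.inl v) : ℕ) : ℝ) + 1 := by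
      push_cast
      have : κ / T * (V'.card + q * T - ∑ j, ∑ v ∈ V', x j v)
        = κ / T * V'.card + κ / T * (q * T - ∑ j, ∑ v ∈ V', x j v) := by ring
      linarith
    have h2 : r < (∑ v, m (Sum.inl v)) + 1 := by exact_mod_cast h1
    omega
  obtain ⟨v, hv1, hv2⟩ := choose_tuple (fun v => m (Sum.inl v)) r hr
  refine ⟨v, fun i => ?_, fun j => ?_⟩
  · by_contra hi
    exact hv1 i (hm1 _ (by simp [chi, hi]))
  · have h1 := hv2 (x j) (hx j)
    have h2 := hm4 j
    rw [hm6] at h2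
    simp only [Nat.cast_zero, add_zero] at h2
    linarith

lemma markov_card {V : Type} [Fintype V] (f : V → ℝ) (hf : ∀ v, 0 ≤ f v) (ρ : ℝ) :
    ((univ.filter fun v => ρ < f v).card : ℝ) * ρ ≤ ∑ v, f v := by
  calc ((univ.filter fun v => ρ < f v).card : ℝ) * ρ = ∑ _v ∈ univ.filter fun v => ρ < f v, ρ := by
        rw [Finset.sum_const, nsmul_eq_mul]
    _ ≤ ∑ v ∈ univ.filter fun v => ρ < f v, f v :=
        Finset.sum_le_sum fun v hv => (Finset.mem_filter.mp hv).2.le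
    _ ≤ ∑ v, f v :=
        Finset.sum_le_sum_of_subset_of_nonneg (Finset.filter_subset _ _) fun v _ _ => hf v

lemma small_classes {V σ : Type} [DecidableEq V] [DecidableEq σ] [Fintype σ] (V0 : Finset V)
    (τ : V → σ) {c : ℝ} (hc : 0 ≤ c) :
    (V0.card : ℝ) ≤ (V0.filter fun v => c ≤ ((V0.filter fun u => τ u = τ v).card : ℝ)).card
      + Fintype.card σ * c := by
  rw [← Finset.card_filter_add_card_filter_not
    (fun v => c ≤ ((V0.filter fun u => τ u = τ v).card : ℝ))]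
  push_cast
  refine add_le_add le_rfl ?_
  set S := V0.filter fun v => ¬ c ≤ ((V0.filter fun u => τ u = τ v).card : ℝ) with hS
  rw [Finset.card_eq_sum_card_fiberwise (f := τ) (t := univ) (fun _ _ => mem_univ _)]
  push_cast
  calc ∑ b : σ, ((S.filter fun a => τ a = b).card : ℝ) ≤ ∑ _b : σ, c := by
        refine Finset.sum_le_sum fun b _ => ?_
        rcases (S.filter fun a => τ a = b).eq_empty_or_nonempty with h | ⟨v, hv⟩
        · rw [h]; simpa using hc
        · obtain ⟨hv1, hv2⟩ := Finset.mem_filter.mp hv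
          have h1 := (Finset.mem_filter.mp hv1).2
          push Not at h1
          refine le_trans ?_ h1.le
          have : (S.filter fun a => τ a = b) ⊆ V0.filter fun u => τ u = τ v := by
            rw [hv2]
            exact Finset.filter_subset_filter _ (Finset.filter_subset _ _)
          exact_mod_cast Finset.card_le_card this
    _ = Fintype.card σ * c := by rw [Finset.sum_const, Finset.card_univ, nsmul_eq_mul]

lemma type_close {L : ℕ} (hL : 0 < L) {a b : ℝ} (ha0 : 0 ≤ a) (ha : a < 1)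
    (h : min L ⌊L * b⌋₊ = min L ⌊L * a⌋₊) : b ≤ a + 1 / L := by
  have hL' : (0:ℝ) < L := by exact_mod_cast hL
  have h1 : ⌊L * a⌋₊ < L := by
    rw [Nat.floor_lt (by positivity)]
    nlinarith
  have h2 : ⌊L * b⌋₊ = ⌊L * a⌋₊ := by omega
  have h3 := Nat.lt_floor_add_one (L * b)
  have h4 := Nat.floor_le (show 0 ≤ L * a by positivity)
  rw [h2] at h3
  have h5 : a + 1 / L = (L * a + 1) / L := by field_simp
  rw [h5, le_div_iff₀ hL']
  linarith

lemma arith5 {R β δ n T E : ℝ} (hR : 0 ≤ R) (hβ0 : 0 < β) (hβ1 : β ≤ 1 / 4)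
    (hβ2 : β * (9 * R + 2) ≤ δ) (hn : 0 ≤ n) (hT0 : 0 < T) (hT : T ≤ 2 * n)
    (hE : R * T + δ * n + 1 - (R + 2) * β * n ≤ E) : R < (1 - 2 * β) / T * E := by
  rw [div_mul_eq_mul_div, lt_div_iff₀ hT0]
  have h1 : 8 * R * β * n ≤ δ * n - (R + 2) * β * n := by nlinarith
  have h2 : (1 - 2 * β) * (R * T + 8 * R * β * n + 1) ≤ (1 - 2 * β) * E :=
    mul_le_mul_of_nonneg_left (by linarith) (by linarith)
  have h3 : 0 ≤ R * β := mul_nonneg hR hβ0.le
  have h4 : R * β * T ≤ R * β * (2 * n) := mul_le_mul_of_nonneg_left hT h3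
  have h5 : 0 ≤ R * β * n := mul_nonneg h3 hn
  nlinarith

theorem core (q r : ℕ) (hq : 1 ≤ q) (hr : 2 ≤ r) (δ : ℝ) (hδ : 0 < δ) :
    ∃ ε : ℝ, 0 < ε ∧ ∀ (V : Type) [DecidableEq V] [Fintype V] (s tm : ℕ) (t : Fin q → ℕ),
      (s : ℝ) ≤ ε * Fintype.card V → (∀ j, 1 ≤ t j) → (∀ j, t j ≤ tm) →
      ((r : ℝ) - 1) * tm + ∑ j, ((t j : ℝ) - 1) + 1 + Fintype.card V * δ ≤ Fintype.card V →
      ∀ H : Finset (Finset V), (∀ e ∈ H, e.card = r) →
      (∀ A : Fin r → Finset V, (∀ i k, i ≠ k → Disjoint (A i) (A k)) → (∀ i, s ≤ (A i).card) →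
        ∃ v : Fin r → V, (∀ i, v i ∈ A i) ∧ univ.image v ∈ H) →
      ∀ c : Finset V → Fin q, ∃ j, ∃ M ⊆ H, M.card = t j ∧
        (M : Set (Finset V)).PairwiseDisjoint id ∧ ∀ e ∈ M, c e = j := by
  have hq' : (1:ℝ) ≤ q := by exact_mod_cast hq
  have hr' : (2:ℝ) ≤ r := by exact_mod_cast hr
  obtain ⟨R, hR⟩ : ∃ R : ℝ, R = r + q - 1 := ⟨_, rfl⟩
  have hR0 : 0 ≤ R := by linarith
  obtain ⟨β, hβ0, hβ1, hβ2⟩ : ∃ β : ℝ, 0 < β ∧ β ≤ 1 / 4 ∧ β * (9 * R + 2) ≤ δ := by
    refine ⟨min (1 / 4) (δ / (9 * R + 2)), lt_min (by norm_num) (by positivity), min_le_left _ _, ?_⟩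
    rw [← le_div_iff₀ (by positivity)]
    exact min_le_right _ _
  obtain ⟨η, hη, hnib⟩ := nibble (r := r) (by omega) hβ0
  obtain ⟨θ, hθ⟩ : ∃ θ : ℝ, θ = β / r ^ 2 := ⟨_, rfl⟩
  have hθ0 : 0 < θ := by rw [hθ]; positivity
  obtain ⟨ρ, hρ⟩ : ∃ ρ : ℝ, ρ = 4 * q / (η * β) := ⟨_, rfl⟩
  have hρ0 : 0 < ρ := by rw [hρ]; positivity
  obtain ⟨Δ, hΔ⟩ : ∃ Δ : ℝ, Δ = 1 + ρ / θ := ⟨_, rfl⟩
  have hΔ1 : 1 ≤ Δ := by rw [hΔ]; have : 0 < ρ / θ := by positivity
                         linarith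
  obtain ⟨L, hL⟩ := exists_nat_gt (r / β)
  have hL0 : (0:ℝ) < L := lt_trans (by positivity) hL
  obtain ⟨γ, hγ⟩ : ∃ γ : ℝ, γ = β / (L + 1) ^ q := ⟨_, rfl⟩
  have hγ0 : 0 < γ := by rw [hγ]; positivity
  refine ⟨γ / (r * Δ), by positivity, ?_⟩
  intro V _ _ s tm t hs ht1 htm hn H hH hconn c
  obtain ⟨n, hndef⟩ : ∃ n : ℝ, n = Fintype.card V := ⟨_, rfl⟩
  rw [← hndef] at hs hn
  have hn0 : 0 ≤ n := by rw [hndef]; exact Nat.cast_nonneg _
  by_contra hcon
  push Not at hcon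
  have ht1' : ∀ j, (1:ℝ) ≤ t j := fun j => by exact_mod_cast ht1 j
  have htm' : ∀ j, (t j : ℝ) ≤ tm := fun j => by exact_mod_cast htm j
  have htm1 : (1:ℝ) ≤ tm := (ht1' ⟨0, hq⟩).trans (htm' _)
  have hΛ0 : 0 ≤ ∑ j, ((t j : ℝ) - 1) := Finset.sum_nonneg fun j _ => by linarith [ht1' j]
  have hnδ : 0 ≤ n * δ := mul_nonneg hn0 hδ.le
  have htmn : (tm : ℝ) ≤ n := by nlinarith
  have hβn : β * n ≤ n := by nlinarith
  have hβn0 : 0 ≤ β * n := mul_nonneg hβ0.le hn0
  -- dual covers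
  have hdual : ∀ j, ∃ (x : V → ℝ) (y : V → V → ℝ), (∀ v, 0 ≤ x v) ∧ (∀ u v, 0 ≤ y u v) ∧
      ∑ v, x v + η * ∑ u, ∑ v, y u v ≤ t j - 1 + β * n ∧
      ∀ θ : ℝ, 0 ≤ θ → ∀ e ∈ H.filter (fun e => c e = j),
        (∀ u ∈ e, ∀ v ∈ e, u ≠ v → y u v ≤ θ) → 1 ≤ ∑ v ∈ e, x v + r ^ 2 * θ := by
    intro j
    have hG : ∀ e ∈ H.filter (fun e => c e = j), e.card = r :=
      fun e he => hH e (Finset.mem_filter.mp he).1
    refine dual_cover hη _ hG fun w hw hl hc => ?_
    obtain ⟨M, hM1, hM2, hM3⟩ := hnib V _ w hG hw hl hc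
    rw [← hndef] at hM3
    have hlt : M.card < t j := by
      by_contra hge
      push Not at hge
      obtain ⟨M', hM'1, hM'2⟩ := Finset.exists_subset_card_eq hge
      obtain ⟨e, he1, he2⟩ := hcon j M' (hM'1.trans (hM1.trans (Finset.filter_subset _ _))) hM'2
        (hM2.subset (by exact_mod_cast hM'1))
      exact he2 (Finset.mem_filter.mp (hM1 (hM'1 he1))).2
    have : (M.card : ℝ) + 1 ≤ t j := by exact_mod_cast hlt
    linarith
  choose x y hx0 hy0 hxy hcov using hdual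
  have hysum0 : ∀ j, 0 ≤ ∑ u, ∑ v, y j u v := fun j =>
    Finset.sum_nonneg fun u _ => Finset.sum_nonneg fun v _ => hy0 j u v
  have hxsum0 : ∀ j, 0 ≤ ∑ v, x j v := fun j => Finset.sum_nonneg fun v _ => hx0 j v
  have hxsum : ∀ j, ∑ v, x j v ≤ t j - 1 + β * n := fun j => by
    have := mul_nonneg hη.le (hysum0 j)
    linarith [hxy j]
  have hysum : ∀ j, ∑ u, ∑ v, y j u v ≤ 2 * n / η := fun j => by
    rw [le_div_iff₀ hη]
    linarith [hxy j, hxsum0 j, htm' j]
  obtain ⟨z, hz⟩ : ∃ z : V → V → ℝ, z = fun u v => ∑ j, (y j u v + y j v u) := ⟨_, rfl⟩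
  have hz0 : ∀ u v, 0 ≤ z u v := fun u v => by
    rw [hz]; exact Finset.sum_nonneg fun j _ => add_nonneg (hy0 j u v) (hy0 j v u)
  have hzsymm : ∀ u v, z u v = z v u := fun u v => by
    rw [hz]; exact Finset.sum_congr rfl fun j _ => add_comm _ _
  have hyz : ∀ j u v, y j u v ≤ z u v := fun j u v => by
    rw [hz]
    refine le_trans ?_ (Finset.single_le_sum (f := fun j => y j u v + y j v u)
      (fun j _ => add_nonneg (hy0 j u v) (hy0 j v u)) (mem_univ j))
    linarith [hy0 j v u]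
  have hzsum : ∑ u, ∑ v, z u v ≤ β * n * ρ := by
    have h1 : ∑ u, ∑ v, z u v = ∑ j, (∑ u, ∑ v, y j u v + ∑ u, ∑ v, y j u v) := by
      rw [hz]
      simp only [Finset.sum_add_distrib]
      congr 1
      · rw [Finset.sum_comm (s := (univ : Finset (Fin q)))]
        exact Finset.sum_congr rfl fun u _ => Finset.sum_comm
      · rw [Finset.sum_comm, Finset.sum_comm (s := (univ : Finset (Fin q)))]
        exact Finset.sum_congr rfl fun u _ => Finset.sum_comm
    rw [h1]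
    calc _ ≤ ∑ _j : Fin q, (2 * n / η + 2 * n / η) :=
          Finset.sum_le_sum fun j _ => add_le_add (hysum j) (hysum j)
      _ = β * n * ρ := by
          rw [Finset.sum_const, Finset.card_univ, Fintype.card_fin, nsmul_eq_mul, hρ]
          field_simp; ring
  obtain ⟨V0, hV0⟩ : ∃ V0 : Finset V, V0 = univ.filter fun u => ¬ ρ < ∑ v, z u v := ⟨_, rfl⟩
  have hV0card : n - β * n ≤ V0.card := by
    have h1 := markov_card (fun u => ∑ v, z u v) (fun u => Finset.sum_nonneg fun v _ => hz0 u v) ρ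
    have h2 := le_of_mul_le_mul_right (h1.trans hzsum) hρ0
    have h3 := Finset.card_filter_add_card_filter_not (s := (univ : Finset V))
      (fun u => ρ < ∑ v, z u v)
    rw [← hV0, Finset.card_univ] at h3
    have h4 : ((univ.filter fun u => ρ < ∑ v, z u v).card : ℝ) + V0.card = n := by
      rw [hndef]; exact_mod_cast h3
    linarith
  have hdeg : ∀ u ∈ V0, ((univ.filter fun v => u = v ∨ θ < z u v).card : ℝ) ≤ Δ := by
    intro u hu
    rw [hV0] at hu
    have h1 := (Finset.mem_filter.mp hu).2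
    push Not at h1
    have h2 := markov_card (z u) (hz0 u) θ
    have h3 : ((univ.filter fun v => θ < z u v).card : ℝ) ≤ ρ / θ := by
      rw [le_div_iff₀ hθ0]; linarith
    have h4 : (univ.filter fun v => u = v ∨ θ < z u v) ⊆ insert u (univ.filter fun v => θ < z u v) := by
      intro v hv
      simp only [Finset.mem_filter, Finset.mem_univ, true_and, Finset.mem_insert] at hv ⊢
      rcases hv with h | h
      · exact Or.inl h.symm
      · exact Or.inr h
    have h5 := (Finset.card_le_card h4).trans (Finset.card_insert_le _ _)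
    have h6 : ((univ.filter fun v => u = v ∨ θ < z u v).card : ℝ)
        ≤ (univ.filter fun v => θ < z u v).card + 1 := by exact_mod_cast h5
    linarith
  obtain ⟨τ, hτ⟩ : ∃ τ : V → Fin q → Fin (L + 1),
      ∀ v j, (τ v j : ℕ) = min L ⌊L * x j v⌋₊ :=
    ⟨fun v j => ⟨min L ⌊L * x j v⌋₊, by omega⟩, fun _ _ => rfl⟩
  obtain ⟨V', hV'⟩ : ∃ V' : Finset V,
      V' = V0.filter fun v => γ * n ≤ ((V0.filter fun u => τ u = τ v).card : ℝ) := ⟨_, rfl⟩
  have hV'card : n - 2 * β * n ≤ V'.card := by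
    have h1 := small_classes V0 τ (c := γ * n) (mul_nonneg hγ0.le hn0)
    rw [← hV'] at h1
    have h2 : (Fintype.card (Fin q → Fin (L + 1)) : ℝ) * (γ * n) = β * n := by
      rw [hγ]; simp only [Fintype.card_fun, Fintype.card_fin]; push_cast; field_simp
    linarith
  have hX : ∀ j, ∑ v ∈ V', x j v ≤ t j - 1 + β * n := fun j =>
    (Finset.sum_le_sum_of_subset_of_nonneg (Finset.subset_univ _) fun v _ _ => hx0 j v).trans
      (hxsum j)
  obtain ⟨v, hv1, hv2⟩ := good_tuple (r := r) V' x hx0 (T := tm + β * n) (κ := 1 - 2 * β)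
    (by linarith) (by linarith) (by linarith) (fun j => by linarith [hX j, htm' j]) (by
      rw [← hR]
      refine arith5 hR0 hβ0 hβ1 hβ2 hn0 (by linarith) (by linarith) ?_
      have h1 : ∑ j, ∑ v ∈ V', x j v ≤ ∑ j, ((t j : ℝ) - 1 + β * n) :=
        Finset.sum_le_sum fun j _ => hX j
      rw [Finset.sum_add_distrib, Finset.sum_const, Finset.card_univ, Fintype.card_fin,
        nsmul_eq_mul] at h1
      rw [hR]
      nlinarith)
  obtain ⟨A, hA1, hA2⟩ := greedy_select (fun u v => u = v ∨ θ < z u v)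
    (fun u v h => h.imp Eq.symm fun h => hzsymm u v ▸ h) Δ hΔ1 s
    (fun i : Fin r => V0.filter fun u => τ u = τ (v i))
    (fun i u hu => hdeg u (Finset.mem_filter.mp hu).1) (fun i => by
      have h1 := hv1 i
      rw [hV'] at h1
      refine le_trans ?_ (Finset.mem_filter.mp h1).2
      rw [Fintype.card_fin]
      rw [div_mul_eq_mul_div, le_div_iff₀ (by positivity)] at hs
      linarith) univ
  obtain ⟨u, hu1, hu2⟩ := hconn A (fun i k hik => by
      rw [Finset.disjoint_left]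
      intro a ha ha'
      exact hA2 i (mem_univ _) k (mem_univ _) hik a ha a ha' (Or.inl rfl))
    (fun i => (hA1 i (mem_univ _)).2.ge)
  have h1 := hcov (c (univ.image u)) θ hθ0.le (univ.image u) (Finset.mem_filter.mpr ⟨hu2, rfl⟩) (by
    intro a ha b hb hab
    obtain ⟨i, -, rfl⟩ := Finset.mem_image.mp ha
    obtain ⟨k, -, rfl⟩ := Finset.mem_image.mp hb
    have hik : i ≠ k := fun h => hab (by rw [h])
    have h2 := hA2 i (mem_univ _) k (mem_univ _) hik _ (hu1 i) _ (hu1 k)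
    push Not at h2
    exact (hyz _ _ _).trans h2.2)
  set j := c (univ.image u)
  have h2 : ∑ a ∈ univ.image u, x j a ≤ ∑ i, x j (u i) :=
    Finset.sum_image_le_of_nonneg fun a _ => hx0 j a
  have h3 : ∑ i, x j (u i) ≤ ∑ i, (x j (v i) + 1 / L) := by
    refine Finset.sum_le_sum fun i _ => ?_
    have h4 : τ (u i) = τ (v i) := (Finset.mem_filter.mp ((hA1 i (mem_univ _)).1 (hu1 i))).2
    have h5 : x j (v i) ≤ ∑ i, x j (v i) :=
      Finset.single_le_sum (f := fun i => x j (v i)) (fun i _ => hx0 j _) (mem_univ i)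
    refine type_close (by exact_mod_cast hL0) (hx0 j _) (by linarith [hv2 j]) ?_
    rw [← hτ, ← hτ, h4]
  rw [Finset.sum_add_distrib, Finset.sum_const, Finset.card_univ, Fintype.card_fin,
    nsmul_eq_mul] at h3
  have h4 : (r:ℝ) ^ 2 * θ = β := by rw [hθ]; field_simp
  have h5 : (r:ℝ) * (1 / L) < β := by
    rw [div_lt_iff₀ hβ0] at hL
    rw [mul_one_div, div_lt_iff₀ hL0]; linarith
  linarith [hv2 j]

end Pool.Agent.Lib.MP_d738f8_co
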