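import Mathlib

/-! Deficiency form of the Tutte-Berge formula, derived from Tutte's theorem. -/

namespace Pool.Agent.Lib.MP_d738f8_co.Exact

open Finset

/-- `G` has `k` pairwise disjoint edges. -/
def HasM {V : Type} (G : SimpleGraph V) (k : ℕ) : Prop :=
  ∃ M : Finset (Sym2 V), M.card = k ∧ (∀ e ∈ M, e ∈ G.edgeSet) ∧
    ∀ e ∈ M, ∀ f ∈ M, e ≠ f → ∀ v, v ∈ e → v ∉ f

/-- `G` together with `m` new vertices joined to everything. -/
def cone {V : Type} (G : SimpleGraph V) (m : ℕ) : SimpleGraph (V ⊕ Fin m) where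
  Adj x y := x ≠ y ∧ ∀ a b, x = Sum.inl a → y = Sum.inl b → G.Adj a b
  symm := ⟨fun _ _ h => ⟨h.1.symm, fun a b ha hb => (h.2 b a hb ha).symm⟩⟩
  loopless := ⟨fun _ h => h.1 rfl⟩

theorem hasM_of_pm {V : Type} [Fintype V] (G : SimpleGraph V) (k m : ℕ)
    (hn : Fintype.card V = m + (2 * k + 2)) (M : (cone G m).Subgraph)
    (hM : M.IsPerfectMatching) : HasM G (k + 1) := by
  classical
  rw [SimpleGraph.Subgraph.isPerfectMatching_iff] at hM
  choose p hp hu using hM
  have hpp : ∀ x, p (p x) = x := fun x => (hu (p x) x (hp x).symm).symm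
  have hinj : Function.Injective p := Function.LeftInverse.injective hpp
  let f : V → V := fun a => Sum.elim id (fun _ => a) (p (Sum.inl a))
  let S : Finset V := univ.filter fun a => p (Sum.inl a) = Sum.inl (f a)
  have hS : ∀ a, a ∈ S ↔ p (Sum.inl a) = Sum.inl (f a) := fun a => by simp [S]
  have hff : ∀ a ∈ S, f (f a) = a := fun a ha => by
    have h1 := (hS a).1 ha
    have h2 : p (Sum.inl (f a)) = Sum.inl a := by rw [← h1, hpp]
    show Sum.elim id (fun _ => f a) (p (Sum.inl (f a))) = a
    rw [h2]; rfl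
  have hadj : ∀ a ∈ S, G.Adj a (f a) := fun a ha =>
    (M.adj_sub (hp (Sum.inl a))).2 a (f a) rfl ((hS a).1 ha)
  have hc : (univ \ S).card ≤ m := by
    have h1 : (univ \ S).card ≤ ((univ : Finset (Fin m)).image (Sum.inr : Fin m → V ⊕ Fin m)).card := by
      refine card_le_card_of_injOn (fun a => p (Sum.inl a)) (fun a ha => ?_) (fun a _ b _ h => ?_)
      · have ha' : a ∉ S := (mem_sdiff.1 (mem_coe.1 ha)).2
        rw [hS] at ha'
        rcases h : p (Sum.inl a) with b | j
        · exfalso; apply ha'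
          show p (Sum.inl a) = Sum.inl (Sum.elim id (fun _ => a) (p (Sum.inl a)))
          rw [h]; rfl
        · simp [h]
      · exact Sum.inl_injective (hinj h)
    refine h1.trans (card_image_le.trans (by simp))
  have hSc : 2 * k + 2 ≤ S.card := by
    have := card_sdiff_add_card_eq_card (subset_univ S)
    rw [card_univ] at this
    omega
  let E : Finset (Sym2 V) := S.image fun a => s(a, f a)
  have hmem : ∀ a ∈ S, ∀ v, v ∈ s(a, f a) → s(a, f a) = s(v, f v) := fun a ha v hv => by
    rcases Sym2.mem_iff.1 hv with rfl | rfl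
    · rfl
    · rw [hff a ha, Sym2.eq_swap]
  have hE : S.card ≤ 2 * E.card := by
    refine card_le_mul_card_image S 2 fun e he => ?_
    obtain ⟨a, ha, rfl⟩ := mem_image.1 he
    refine (card_le_card (t := {a, f a}) fun b hb => ?_).trans card_le_two
    have hb' := (mem_filter.1 hb).2
    have : b ∈ s(a, f a) := by rw [← hb']; exact Sym2.mem_mk_left _ _
    simpa using this
  obtain ⟨N, hN, hNc⟩ := exists_subset_card_eq (s := E) (n := k + 1) (by omega)
  refine ⟨N, hNc, fun e he => ?_, fun e he e' he' hne v hv hv' => ?_⟩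
  · obtain ⟨a, ha, rfl⟩ := mem_image.1 (hN he)
    exact hadj a ha
  · obtain ⟨a, ha, rfl⟩ := mem_image.1 (hN he)
    obtain ⟨b, hb, rfl⟩ := mem_image.1 (hN he')
    exact hne ((hmem a ha v hv).trans (hmem b hb v hv').symm)

theorem tb {V : Type} [Fintype V] [DecidableEq V] (G : SimpleGraph V) (k : ℕ)
    (h : ¬ HasM G (k + 1)) :
    ∃ (X : Finset V) (l : V → ℕ), (∀ a b, a ∉ X → b ∉ X → G.Adj a b → l a = l b) ∧
      X.card + Fintype.card V ≤ 2 * k + ((univ \ X).image l).card := by
  classical
  by_cases hn : Fintype.card V ≤ 2 * k + 1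
  · refine ⟨∅, fun _ => 0, fun _ _ _ _ _ => rfl, ?_⟩
    rcases isEmpty_or_nonempty V with hV | hV
    · simp
    · have : 1 ≤ ((univ \ (∅ : Finset V)).image fun _ => (0 : ℕ)).card :=
        card_pos.2 (Nonempty.image (by simp) _)
      simp only [card_empty]
      omega
  obtain ⟨m, hm⟩ : ∃ m, Fintype.card V = m + (2 * k + 2) := ⟨Fintype.card V - (2 * k + 2), by omega⟩
  have hno : ¬ ∃ M : (cone G m).Subgraph, M.IsPerfectMatching := fun ⟨M, hM⟩ =>
    h (hasM_of_pm G k m hm M hM)
  rw [SimpleGraph.tutte] at hno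
  push Not at hno
  obtain ⟨u, hu⟩ := hno
  let D := (⊤ : (cone G m).Subgraph).deleteVerts u
  let H := D.coe
  have hu' : u.ncard < H.oddComponents.ncard := hu
  have hverts : D.verts = uᶜ := by
    ext x; simp [D]
  have hpar : Odd H.oddComponents.ncard ↔ Odd (Nat.card D.verts) := H.odd_ncard_oddComponents
  have hcard : u.ncard + Nat.card D.verts = Fintype.card V + m := by
    rw [hverts, Nat.card_coe_set_eq, Set.ncard_add_ncard_compl]
    simp
  have h2 : u.ncard + 2 ≤ H.oddComponents.ncard := by
    rw [Nat.odd_iff, Nat.odd_iff] at hpar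
    omega
  have hadjH : ∀ x y : D.verts, (cone G m).Adj x.1 y.1 → H.Adj x y := fun x y hxy => by
    have hx := x.2
    have hy := y.2
    simp only [H, D, SimpleGraph.Subgraph.coe_adj, SimpleGraph.Subgraph.deleteVerts_adj,
      SimpleGraph.Subgraph.top_adj]
    exact ⟨hx.1, hx.2, hy.1, hy.2, hxy⟩
  have hall : ∀ j, Sum.inr j ∈ u := fun j => by
    by_contra hj
    have hjv : Sum.inr j ∈ D.verts := by rw [hverts]; exact hj
    have hone : ∀ c : H.ConnectedComponent, c = H.connectedComponentMk ⟨Sum.inr j, hjv⟩ := by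
      intro c
      induction c using SimpleGraph.ConnectedComponent.ind with
      | _ x =>
        by_cases hx : x = ⟨Sum.inr j, hjv⟩
        · rw [hx]
        · refine SimpleGraph.ConnectedComponent.connectedComponentMk_eq_of_adj (hadjH _ _ ?_)
          exact ⟨fun e => hx (Subtype.ext e), fun a b _ hb => absurd hb (by simp)⟩
    have : H.oddComponents.ncard ≤ 1 :=
      Set.ncard_le_one (Set.toFinite _) |>.2 fun a _ b _ => (hone a).trans (hone b).symm
    omega
  let X : Finset V := univ.filter fun a => Sum.inl a ∈ u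
  have hX : ∀ a, a ∉ X ↔ Sum.inl a ∈ D.verts := fun a => by
    rw [hverts]; simp [X]
  have huc : X.card + m ≤ u.ncard := by
    have hsub : ((X.disjSum (univ : Finset (Fin m)) : Finset (V ⊕ Fin m)) : Set (V ⊕ Fin m)) ⊆ u := by
      intro x hx
      rcases x with a | j
      · have : a ∈ X := by simpa using hx
        simpa [X] using this
      · exact hall j
    have := Set.ncard_le_ncard hsub (Set.toFinite _)
    rw [Set.ncard_coe_finset, card_disjSum] at this
    simpa using this
  let e := Finite.equivFin H.ConnectedComponent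
  let l : V → ℕ := fun a =>
    if ha : Sum.inl a ∈ D.verts then (e (H.connectedComponentMk ⟨Sum.inl a, ha⟩) : ℕ) else 0
  refine ⟨X, l, fun a b ha hb hab => ?_, ?_⟩
  · have ha' := (hX a).1 ha
    have hb' := (hX b).1 hb
    simp only [l, dif_pos ha', dif_pos hb']
    rw [SimpleGraph.ConnectedComponent.connectedComponentMk_eq_of_adj
      (hadjH ⟨_, ha'⟩ ⟨_, hb'⟩ ⟨fun e => hab.ne (Sum.inl_injective e), fun a' b' h1 h2 => by
        rw [← Sum.inl_injective h1, ← Sum.inl_injective h2]; exact hab⟩)]
  · have : H.oddComponents.ncard ≤ (((univ \ X).image l : Finset ℕ) : Set ℕ).ncard := by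
      refine Set.ncard_le_ncard_of_injOn (fun c => (e c : ℕ)) (fun c _ => ?_)
        (fun c _ c' _ hc => e.injective (Fin.ext hc)) (Set.toFinite _)
      induction c using SimpleGraph.ConnectedComponent.ind with
      | _ x =>
        obtain ⟨x, hx⟩ := x
        rcases x with a | j
        · refine mem_coe.2 (mem_image.2 ⟨a, mem_sdiff.2 ⟨mem_univ _, (hX a).2 hx⟩, ?_⟩)
          simp only [l, dif_pos hx]
        · exfalso
          rw [hverts] at hx
          exact hx (hall j)
    rw [Set.ncard_coe_finset] at this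
    omega

end Pool.Agent.Lib.MP_d738f8_co.Exact
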