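import Mathlib
import Pool.Agent.Lib.MP_d738f8_co.ExactTB

/-! Exact Ramsey threshold for matchings in connector graphs: counting core. -/

namespace Pool.Agent.Lib.MP_d738f8_co.Exact

open Finset

/-- Size of `U` minus the number of labels used on `U`. -/
def dfc {V β : Type} [DecidableEq β] (l : V → β) (U : Finset V) : ℤ :=
  (U.card : ℤ) - ((U.image l).card : ℤ)

theorem dfc_mono {V β : Type} [DecidableEq V] [DecidableEq β] (l : V → β) {U U' : Finset V}
    (h : U ⊆ U') : dfc l U ≤ dfc l U' := by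
  have h1 : U'.image l ⊆ U.image l ∪ (U' \ U).image l := by
    rw [← image_union, union_sdiff_of_subset h]
  have h2 := (card_le_card h1).trans (card_union_le _ _)
  have h3 : ((U' \ U).image l).card ≤ (U' \ U).card := card_image_le
  have h4 := card_sdiff_add_card_eq_card h
  unfold dfc
  omega

theorem dfc_insert {V β : Type} [DecidableEq V] [DecidableEq β] (l : V → β) {U : Finset V} {a : V}
    (ha : a ∉ U) (h : ∃ u ∈ U, l u = l a) : dfc l (insert a U) = dfc l U + 1 := by
  obtain ⟨u, hu, e⟩ := h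
  have : l a ∈ U.image l := mem_image.2 ⟨u, hu, e⟩
  unfold dfc
  rw [image_insert, insert_eq_of_mem this, card_insert_of_notMem ha]
  push_cast
  ring

theorem dfc_insert' {V β : Type} [DecidableEq V] [DecidableEq β] (l : V → β) {U : Finset V} {a : V}
    (ha : a ∉ U) (h : ¬ ∃ u ∈ U, l u = l a) : dfc l (insert a U) = dfc l U := by
  have : l a ∉ U.image l := fun hh => h (mem_image.1 hh)
  unfold dfc
  rw [image_insert, card_insert_of_notMem this, card_insert_of_notMem ha]
  push_cast
  ring

theorem cluster {V β : Type} [DecidableEq V] [DecidableEq β] (κ : V → β) (U : Finset V)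
    (s T : ℕ) (hs : 1 ≤ s)
    (hconn : ∀ A B : Finset V, A ⊆ U → B ⊆ U → Disjoint A B → s ≤ A.card → s ≤ B.card →
      ∃ a ∈ A, ∃ b ∈ B, κ a = κ b)
    (hfib : ∀ y, (U.filter fun v => κ v = y).card + 1 ≤ 2 * T) :
    U.card + (U.image κ).card + 2 ≤ 2 * (max T s + s) := by
  have hm1 := le_max_left T s
  have hm2 := le_max_right T s
  by_cases hU : U.card < s
  · have : (U.image κ).card ≤ U.card := card_image_le
    omega
  have hne : ((U.image κ).powerset.filter fun R => s ≤ (U.filter fun v => κ v ∈ R).card).Nonempty := by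
    refine ⟨U.image κ, mem_filter.2 ⟨mem_powerset_self _, ?_⟩⟩
    rw [filter_true_of_mem fun v hv => mem_image_of_mem κ hv]
    omega
  obtain ⟨R, hR, hmin⟩ := exists_min_image _ card hne
  obtain ⟨hR1, hR2⟩ := mem_filter.1 hR
  rw [mem_powerset] at hR1
  have hB : (U.filter fun v => κ v ∉ R).card < s := by
    by_contra hB
    obtain ⟨a, ha, b, hb, e⟩ := hconn _ _ (filter_subset _ _) (filter_subset _ _)
      (disjoint_filter_filter_not U U fun v => κ v ∈ R) hR2 (not_lt.1 hB)
    exact (mem_filter.1 hb).2 (e ▸ (mem_filter.1 ha).2)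
  have hsplit := card_filter_add_card_filter_not (s := U) fun v => κ v ∈ R
  have himg : (U.image κ).card ≤ R.card + (U.filter fun v => κ v ∉ R).card := by
    have h1 : U.image κ ⊆ R ∪ (U.filter fun v => κ v ∉ R).image κ := fun y hy => by
      obtain ⟨v, hv, rfl⟩ := mem_image.1 hy
      by_cases h : κ v ∈ R
      · exact mem_union_left _ h
      · exact mem_union_right _ (mem_image_of_mem κ (mem_filter.2 ⟨hv, h⟩))
    exact (card_le_card h1).trans ((card_union_le _ _).trans (Nat.add_le_add_left card_image_le _))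
  have hRne : R.Nonempty := by
    obtain ⟨v, hv⟩ := card_pos.1 (lt_of_lt_of_le hs hR2)
    exact ⟨_, (mem_filter.1 hv).2⟩
  obtain ⟨y, hy, hymin⟩ := exists_min_image R (fun y => (U.filter fun v => κ v = y).card) hRne
  have hw : 1 ≤ (U.filter fun v => κ v = y).card := by
    obtain ⟨v, hv, e⟩ := mem_image.1 (hR1 hy)
    exact card_pos.2 ⟨v, mem_filter.2 ⟨hv, e⟩⟩
  have hRc := card_erase_add_one hy
  have hA' : (U.filter fun v => κ v ∈ R.erase y).card < s := by
    by_contra hA
    have := hmin (R.erase y) (mem_filter.2 ⟨mem_powerset.2 ((erase_subset _ _).trans hR1), not_lt.1 hA⟩)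
    omega
  have hA : (U.filter fun v => κ v ∈ R).card ≤
      (U.filter fun v => κ v ∈ R.erase y).card + (U.filter fun v => κ v = y).card := by
    refine le_trans (card_le_card fun v hv => ?_) (card_union_le _ _)
    obtain ⟨h1, h2⟩ := mem_filter.1 hv
    by_cases e : κ v = y
    · exact mem_union_right _ (mem_filter.2 ⟨h1, e⟩)
    · exact mem_union_left _ (mem_filter.2 ⟨h1, mem_erase.2 ⟨e, h2⟩⟩)
  have hsum : (R.erase y).card * (U.filter fun v => κ v = y).card ≤
      (U.filter fun v => κ v ∈ R.erase y).card := by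
    rw [card_eq_sum_card_fiberwise (f := κ) (s := U.filter fun v => κ v ∈ R.erase y)
      (t := R.erase y) fun v hv => (mem_filter.1 (mem_coe.1 hv)).2, ← smul_eq_mul]
    refine card_nsmul_le_sum _ _ _ fun z hz => (hymin z (mem_of_mem_erase hz)).trans ?_
    refine card_le_card fun v hv => ?_
    obtain ⟨h1, h2⟩ := mem_filter.1 hv
    exact mem_filter.2 ⟨mem_filter.2 ⟨h1, h2 ▸ hz⟩, h2⟩
  have hf := hfib y
  rcases Nat.eq_zero_or_pos (R.erase y).card with h0 | h0
  · have : (U.filter fun v => κ v ∈ R.erase y).card = 0 := by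
      rw [card_eq_zero.1 h0]; simp
    omega
  · have : (U.filter fun v => κ v = y).card + (R.erase y).card ≤
        (R.erase y).card * (U.filter fun v => κ v = y).card + 1 := by
      obtain ⟨a, ha⟩ := Nat.exists_eq_add_of_le hw
      obtain ⟨b, hb⟩ := Nat.exists_eq_add_of_le h0
      rw [ha, hb]
      nlinarith [Nat.zero_le (a * b)]
    omega

theorem potential {V : Type} [DecidableEq V] {q : ℕ} (l : Fin q → V → ℕ) (W : Finset V)
    (s T : ℕ) (hs : 1 ≤ s) (hT : 1 ≤ T)
    (hconn : ∀ A B : Finset V, A ⊆ W → B ⊆ W → Disjoint A B → s ≤ A.card → s ≤ B.card →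
      ∃ a ∈ A, ∃ b ∈ B, ∃ i, l i a = l i b)
    (hsize : ∀ i, dfc (l i) W + 2 ≤ 2 * T) (U : Finset V) :
    U ⊆ W → 2 * (U.card : ℤ) + 2 ≤ ∑ i, dfc (l i) U + 2 * ((max T s : ℕ) + s) := by
  classical
  induction U using Finset.strongInduction with
  | _ U ih =>
  intro hUW
  by_cases h2 : ∃ v ∈ U, ∃ i j, i ≠ j ∧ (∃ u ∈ U.erase v, l i u = l i v) ∧
      (∃ u ∈ U.erase v, l j u = l j v)
  · obtain ⟨v, hv, i, j, hij, hi, hj⟩ := h2
    have h1 := ih (U.erase v) (erase_ssubset hv) ((erase_subset _ _).trans hUW)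
    have hc := card_erase_add_one hv
    have ei := dfc_insert (l i) (notMem_erase v U) hi
    have ej := dfc_insert (l j) (notMem_erase v U) hj
    rw [insert_erase hv] at ei ej
    have h3 : ∑ k ∈ ({i, j} : Finset (Fin q)), (dfc (l k) U - dfc (l k) (U.erase v)) ≤
        ∑ k, (dfc (l k) U - dfc (l k) (U.erase v)) :=
      sum_le_sum_of_subset_of_nonneg (subset_univ _) fun k _ _ =>
        sub_nonneg.2 (dfc_mono _ (erase_subset _ _))
    rw [sum_pair hij, sum_sub_distrib] at h3
    omega
  have huniq : ∀ v ∈ U, ∀ i j, (∃ u ∈ U.erase v, l i u = l i v) →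
      (∃ u ∈ U.erase v, l j u = l j v) → i = j := fun v hv i j hi hj => by
    by_contra hij
    exact h2 ⟨v, hv, i, j, hij, hi, hj⟩
  let κ : V → (Fin q × ℕ) ⊕ V := fun v =>
    if h : ∃ i, ∃ u ∈ U.erase v, l i u = l i v then Sum.inl (h.choose, l h.choose v) else Sum.inr v
  have k0 : ∀ v ∈ U, ∀ i, (∃ u ∈ U.erase v, l i u = l i v) → κ v = Sum.inl (i, l i v) := by
    intro v hv i hi
    have h : ∃ i, ∃ u ∈ U.erase v, l i u = l i v := ⟨i, hi⟩
    have e : h.choose = i := huniq v hv _ _ h.choose_spec hi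
    simp only [κ, dif_pos h, e]
  have k1 : ∀ a ∈ U, ∀ b ∈ U, ∀ i, l i a = l i b → κ a = κ b := by
    intro a ha b hb i e
    by_cases hab : a = b
    · rw [hab]
    · rw [k0 a ha i ⟨b, mem_erase.2 ⟨Ne.symm hab, hb⟩, e.symm⟩,
        k0 b hb i ⟨a, mem_erase.2 ⟨hab, ha⟩, e⟩, e]
  have k2 : ∀ v i c, κ v = Sum.inl (i, c) → l i v = c := by
    intro v i c e
    simp only [κ] at e
    split_ifs at e with h
    have e' := Sum.inl_injective e
    rw [Prod.mk.injEq] at e'
    rw [← e'.2, ← e'.1]
  have k3 : ∀ v w, κ v = Sum.inr w → v = w := by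
    intro v w e
    simp only [κ] at e
    split_ifs at e with h
    exact Sum.inr_injective e
  have hcount : ∀ U' : Finset V, U' ⊆ U → dfc κ U' ≤ ∑ i, dfc (l i) U' := by
    intro U'
    induction U' using Finset.induction_on with
    | empty => intro _; simp [dfc]
    | insert a U' ha ih' =>
      intro hsub
      have h1 := ih' ((subset_insert _ _).trans hsub)
      have hmono : ∀ k, dfc (l k) U' ≤ dfc (l k) (insert a U') := fun k =>
        dfc_mono _ (subset_insert _ _)
      by_cases hk : ∃ u ∈ U', κ u = κ a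
      · rw [dfc_insert κ ha hk]
        obtain ⟨u, hu, e⟩ := hk
        rcases hka : κ a with ⟨i, c⟩ | w
        · have ei := dfc_insert (l i) ha ⟨u, hu, (k2 u i c (e.trans hka)).trans (k2 a i c hka).symm⟩
          have h3 : dfc (l i) (insert a U') - dfc (l i) U' ≤
              ∑ k, (dfc (l k) (insert a U') - dfc (l k) U') :=
            single_le_sum (f := fun k => dfc (l k) (insert a U') - dfc (l k) U')
              (fun k _ => sub_nonneg.2 (hmono k)) (mem_univ i)
          rw [sum_sub_distrib] at h3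
          omega
        · exfalso
          apply ha
          rw [k3 a w hka, ← k3 u w (e.trans hka)]
          exact hu
      · rw [dfc_insert' κ ha hk]
        exact h1.trans (sum_le_sum fun k _ => hmono k)
  have hcl := cluster κ U s T hs (fun A B hA hB hd h1 h2 => by
      obtain ⟨a, ha, b, hb, i, e⟩ := hconn A B (hA.trans hUW) (hB.trans hUW) hd h1 h2
      exact ⟨a, ha, b, hb, k1 a (hA ha) b (hB hb) i e⟩) (fun y => by
      rcases y with ⟨i, c⟩ | w
      · have h1 := dfc_mono (l i) ((filter_subset (fun v => κ v = Sum.inl (i, c)) U).trans hUW)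
        have h2 := hsize i
        have h3 : ((U.filter fun v => κ v = Sum.inl (i, c)).image (l i)).card ≤ 1 :=
          card_le_one.2 fun x hx y hy => by
            obtain ⟨a, ha, rfl⟩ := mem_image.1 hx
            obtain ⟨b, hb, rfl⟩ := mem_image.1 hy
            exact (k2 a i c (mem_filter.1 ha).2).trans (k2 b i c (mem_filter.1 hb).2).symm
        unfold dfc at h1 h2
        omega
      · have : (U.filter fun v => κ v = Sum.inr w).card ≤ 1 :=
          card_le_one.2 fun a ha b hb =>
            (k3 a w (mem_filter.1 ha).2).trans (k3 b w (mem_filter.1 hb).2).symm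
        omega)
  have h5 := hcount U Subset.rfl
  unfold dfc at h5 ⊢
  omega

/-- Upper bound: a colouring of a connector without the matchings forces few vertices. -/
theorem upper {V : Type} [Fintype V] [DecidableEq V] {q : ℕ} (G : SimpleGraph V)
    (Gc : Fin q → SimpleGraph V) (hcov : ∀ a b, G.Adj a b → ∃ i, (Gc i).Adj a b)
    (k : Fin q → ℕ) (s T : ℕ) (hs : 1 ≤ s) (hT : 1 ≤ T) (hk : ∀ i, k i + 1 ≤ T)
    (hconn : ∀ A B : Finset V, Disjoint A B → s ≤ A.card → s ≤ B.card →
      ∃ a ∈ A, ∃ b ∈ B, G.Adj a b)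
    (hno : ∀ i, ¬ HasM (Gc i) (k i + 1)) :
    Fintype.card V + 1 ≤ ∑ i, k i + max T s + s := by
  choose X l hl hX using fun i => tb (Gc i) (k i) (hno i)
  let W : Finset V := univ \ univ.biUnion X
  have hW : ∀ i, W ⊆ univ \ X i := fun i =>
    sdiff_subset_sdiff Subset.rfl (subset_biUnion_of_mem X (mem_univ i))
  have hd : ∀ i, dfc (l i) W ≤ 2 * (k i : ℤ) - 2 * ((X i).card : ℤ) := fun i => by
    have h1 := dfc_mono (l i) (hW i)
    have h2 := card_sdiff_add_card_eq_card (subset_univ (X i))
    have h3 := hX i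
    rw [card_univ] at h2
    unfold dfc at h1 ⊢
    omega
  have hp := potential l W s T hs hT (fun A B hA hB hd h1 h2 => by
      obtain ⟨a, ha, b, hb, e⟩ := hconn A B hd h1 h2
      obtain ⟨i, hi⟩ := hcov a b e
      exact ⟨a, ha, b, hb, i, hl i a b (mem_sdiff.1 (hW i (hA ha))).2
        (mem_sdiff.1 (hW i (hB hb))).2 hi⟩) (fun i => by
      have := hd i
      have := hk i
      omega) W Subset.rfl
  have h1 : ∑ i, dfc (l i) W ≤ ∑ i, (2 * (k i : ℤ) - 2 * ((X i).card : ℤ)) :=
    sum_le_sum fun i _ => hd i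
  rw [sum_sub_distrib, ← mul_sum, ← mul_sum, ← Nat.cast_sum, ← Nat.cast_sum] at h1
  have h2 : W.card + (univ.biUnion X).card = (univ : Finset V).card :=
    card_sdiff_add_card_eq_card (subset_univ _)
  have h3 : (univ.biUnion X).card ≤ ∑ i, (X i).card := card_biUnion_le
  rw [card_univ] at h2
  omega

end Pool.Agent.Lib.MP_d738f8_co.Exact
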